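import Pool.Agent.N184.HK.Cnj

/-!
# Lie algebra detection of ordinarity: linear algebra
-/

set_option autoImplicit false
set_option linter.all false

namespace Pool.Agent.V7H61.LieOrd

open Module Module.End
open Pool.Agent.N184.HK

section bil

variable {K M₁ M₂ M₃ : Type} [Field K] [AddCommGroup M₁] [Module K M₁] [AddCommGroup M₂]
  [Module K M₂] [AddCommGroup M₃] [Module K M₃]

/-- Products of generalized eigenvectors. -/
lemma gen_bil_aux {φ₁ : Module.End K M₁} {φ₂ : Module.End K M₂} {φ₃ : Module.End K M₃}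
    (b : M₁ →ₗ[K] M₂ →ₗ[K] M₃) (hb : ∀ x y, φ₃ (b x y) = b (φ₁ x) (φ₂ y)) {t e : K} (n : ℕ) :
    ∀ (k m : ℕ) (x : M₁) (y : M₂), k + m ≤ n → ((φ₁ - t • 1) ^ k) x = 0 →
      ((φ₂ - e • 1) ^ m) y = 0 → ((φ₃ - (t * e) • 1) ^ n) (b x y) = 0 := by
  induction n with
  | zero =>
    intro k m x y hkm hx hy
    have hk : k = 0 := by omega
    subst hk
    change x = 0 at hx
    rw [hx]; simp
  | succ n ih =>
    intro k m x y hkm hx hy
    rcases k with _ | k
    · change x = 0 at hx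
      rw [hx]; simp
    rcases m with _ | m
    · change y = 0 at hy
      rw [hy]; simp
    rw [_root_.pow_succ, Module.End.mul_apply]
    have h1 : (φ₃ - (t * e) • 1) (b x y) =
        b ((φ₁ - t • 1) x) (φ₂ y) + t • b x ((φ₂ - e • 1) y) := by
      have h2 : (φ₃ - (t * e) • 1) (b x y) = φ₃ (b x y) - (t * e) • b x y := rfl
      have h3 : (φ₁ - t • 1) x = φ₁ x - t • x := rfl
      have h4 : (φ₂ - e • 1) y = φ₂ y - e • y := rfl
      rw [h2, h3, h4, hb, map_sub, map_sub, map_smul, map_smul, LinearMap.sub_apply,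
        LinearMap.smul_apply, smul_sub, smul_smul]
      abel
    rw [h1, map_add, map_smul]
    have h5 := ih k (m + 1) ((φ₁ - t • 1) x) (φ₂ y) (by omega)
      (by rw [← Module.End.mul_apply, ← _root_.pow_succ]; exact hx)
      (by
        have hc : Commute ((φ₂ - e • 1) ^ (m + 1)) φ₂ := by
          refine Commute.pow_left ?_ _
          exact (Commute.refl φ₂).sub_left ((Commute.one_left _).smul_left e)
        have := congrArg (fun f : Module.End K M₂ => f y) hc.eq
        change ((φ₂ - e • 1) ^ (m + 1)) (φ₂ y) = φ₂ (((φ₂ - e • 1) ^ (m + 1)) y) at this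
        rw [this, hy, map_zero])
    have h6 := ih (k + 1) m x ((φ₂ - e • 1) y) (by omega) hx
      (by rw [← Module.End.mul_apply, ← _root_.pow_succ]; exact hy)
    rw [h5, h6, smul_zero, add_zero]

lemma gen_bil {φ₁ : Module.End K M₁} {φ₂ : Module.End K M₂} {φ₃ : Module.End K M₃}
    (b : M₁ →ₗ[K] M₂ →ₗ[K] M₃) (hb : ∀ x y, φ₃ (b x y) = b (φ₁ x) (φ₂ y)) {t e : K} {x : M₁}
    {y : M₂} (hx : x ∈ φ₁.maxGenEigenspace t) (hy : y ∈ φ₂.maxGenEigenspace e) :
    b x y ∈ φ₃.maxGenEigenspace (t * e) := by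
  rw [Module.End.mem_maxGenEigenspace] at hx hy ⊢
  obtain ⟨k, hk⟩ := hx
  obtain ⟨m, hm⟩ := hy
  exact ⟨k + m, gen_bil_aux b hb (k + m) k m x y le_rfl hk hm⟩

variable [IsAlgClosed K] [CharZero K] [FiniteDimensional K M₁] [FiniteDimensional K M₂]
  [FiniteDimensional K M₃]

/-- The slope operators satisfy the Leibniz rule. -/
lemma fop_bil {φ₁ : M₁ ≃ₗ[K] M₁} {φ₂ : M₂ ≃ₗ[K] M₂} {φ₃ : M₃ ≃ₗ[K] M₃}
    (b : M₁ →ₗ[K] M₂ →ₗ[K] M₃) (hb : ∀ x y, φ₃ (b x y) = b (φ₁ x) (φ₂ y)) (w : K → ℚ)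
    (hw : ∀ x y, x ≠ 0 → y ≠ 0 → w (x * y) = w x + w y) (x : M₁) (y : M₂) :
    fop (en φ₃) (fun e => (w e : K)) (b x y) =
      b (fop (en φ₁) (fun e => (w e : K)) x) y + b x (fop (en φ₂) (fun e => (w e : K)) y) := by
  have key : b.compr₂ (fop (en φ₃) (fun e => (w e : K))) =
      b.comp (fop (en φ₁) (fun e => (w e : K))) + b.compl₂ (fop (en φ₂) (fun e => (w e : K))) := by
    refine ext_gen (en φ₁) fun t x hx => ?_
    refine ext_gen (en φ₂) fun e y hy => ?_
    have h1 : b x y ∈ (en φ₃).maxGenEigenspace (t * e) := gen_bil b hb hx hy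
    change fop (en φ₃) _ (b x y) = b (fop (en φ₁) _ x) y + b x (fop (en φ₂) _ y)
    rw [fop_apply _ h1, fop_apply _ hx, fop_apply _ hy, map_smul, map_smul, LinearMap.smul_apply,
      ← add_smul]
    by_cases hb0 : b x y = 0
    · rw [hb0, smul_zero, smul_zero]
    have hx0 : x ≠ 0 := fun h => hb0 (by rw [h]; simp)
    have hy0 : y ≠ 0 := fun h => hb0 (by rw [h]; simp)
    have ht : t ≠ 0 := root_ne (φ := φ₁) (ne_bot_iff.1 fun h => hx0 (by
      rw [h, Submodule.mem_bot] at hx; exact hx))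
    have he : e ≠ 0 := root_ne (φ := φ₂) (ne_bot_iff.1 fun h => hy0 (by
      rw [h, Submodule.mem_bot] at hy; exact hy))
    rw [hw t e ht he, Rat.cast_add]
  exact congrArg (fun f => f x y) key

end bil

section lie

variable {K L : Type} [Field K] [CharZero K] [LieRing L] [LieAlgebra K L] [FiniteDimensional K L]
  [LieAlgebra.IsKilling K L]

/-- A Lie algebra with nondegenerate Killing form is perfect. -/
lemma span_lie : Submodule.span K {z : L | ∃ x y : L, z = ⁅x, y⁆} = ⊤ := by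
  have hnd := LieAlgebra.IsKilling.killingForm_nondegenerate K L
  have hcomm : ∀ x y : L, killingForm K L x y = killingForm K L y x := fun x y =>
    LieModule.traceForm_comm K L L x y
  by_contra hne
  have hlt := lt_top_iff_ne_top.2 hne
  obtain ⟨z, hz, hz0⟩ : ∃ z ∈ LinearMap.BilinForm.orthogonal (killingForm K L)
      (Submodule.span K {z : L | ∃ x y : L, z = ⁅x, y⁆}), z ≠ 0 := by
    by_contra hcon
    push Not at hcon
    have h1 : LinearMap.BilinForm.orthogonal (killingForm K L)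
      (Submodule.span K {z : L | ∃ x y : L, z = ⁅x, y⁆}) = ⊥ :=
      (Submodule.eq_bot_iff _).2 hcon
    have h2 := LinearMap.BilinForm.finrank_orthogonal hnd
      (Submodule.span K {z : L | ∃ x y : L, z = ⁅x, y⁆})
    rw [h1, finrank_bot] at h2
    have h3 := Submodule.finrank_lt hne
    omega
  refine hz0 ?_
  have h1 : ∀ x y : L, killingForm K L x ⁅y, z⁆ = 0 := by
    intro x y
    have h2 := hz ⁅x, y⁆ (Submodule.subset_span ⟨x, y, rfl⟩)
    have h3 : killingForm K L ⁅x, y⁆ z = killingForm K L x ⁅y, z⁆ :=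
      LieModule.traceForm_apply_lie_apply K L L x y z
    rw [← h3]
    exact h2
  have h2 : ∀ y : L, ⁅y, z⁆ = 0 := by
    intro y
    have h3 : ∀ x, killingForm K L ⁅y, z⁆ x = 0 := fun x => by
      rw [hcomm]
      exact h1 x y
    exact hnd.1 _ h3
  have h3 : z ∈ LieAlgebra.center K L := by
    rw [LieModule.mem_maxTrivSubmodule]
    exact h2
  rw [LieAlgebra.center_eq_bot, LieSubmodule.mem_bot] at h3
  exact h3

variable {H : Type} [AddCommGroup H] [Module K H] [FiniteDimensional K H]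

lemma tr_rho_zero (ρ : L →ₗ[K] Module.End K H)
    (hbr : ∀ x y, ρ ⁅x, y⁆ = ρ x * ρ y - ρ y * ρ x) {z : Module.End K H}
    (hz : ∀ x, Commute (ρ x) z) (x : L) : LinearMap.trace K H (ρ x * z) = 0 := by
  have h : Submodule.span K {z : L | ∃ x y : L, z = ⁅x, y⁆} ≤
      LinearMap.ker (LinearMap.trace K H ∘ₗ LinearMap.mulRight K z ∘ₗ ρ) := by
    rw [Submodule.span_le]
    rintro _ ⟨x, y, rfl⟩
    change LinearMap.trace K H (ρ ⁅x, y⁆ * z) = 0
    rw [hbr, sub_mul, map_sub, sub_eq_zero]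
    have h1 : ρ y * ρ x * z = ρ y * z * ρ x := by
      rw [mul_assoc, (hz x).eq, ← mul_assoc]
    rw [h1, mul_assoc (ρ x), LinearMap.trace_mul_comm]
  have hx : x ∈ Submodule.span K {z : L | ∃ x y : L, z = ⁅x, y⁆} := by
    rw [span_lie]; trivial
  exact h hx

end lie

section main

variable {K L H : Type} [Field K] [CharZero K] [IsAlgClosed K] [LieRing L] [LieAlgebra K L]
  [FiniteDimensional K L] [LieAlgebra.IsKilling K L] [AddCommGroup H] [Module K H]
  [FiniteDimensional K H]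

/-- The slope operator of `L` is inner. -/
lemma exists_nu (φL : L ≃ₗ⁅K⁆ L) (w : K → ℚ)
    (hw : ∀ x y, x ≠ 0 → y ≠ 0 → w (x * y) = w x + w y) :
    ∃ ν : L, (∀ x, fop (en φL.toLinearEquiv) (fun e => (w e : K)) x = ⁅ν, x⁆) ∧ φL ν = ν := by
  set S := fop (en φL.toLinearEquiv) (fun e => (w e : K)) with hS
  have hd : ∀ x y : L, S ⁅x, y⁆ = ⁅S x, y⁆ + ⁅x, S y⁆ := fun x y =>
    fop_bil (φ₁ := φL.toLinearEquiv) (φ₂ := φL.toLinearEquiv) (φ₃ := φL.toLinearEquiv)
      (LieModule.toEnd K L L : L →ₗ[K] Module.End K L)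
      (fun x y => LieEquiv.map_lie φL x y) w hw x y
  let D : LieDerivation K L L :=
    { S with
      leibniz' := fun x y => by
        change S ⁅x, y⁆ = ⁅x, S y⁆ - ⁅y, S x⁆
        rw [hd, ← lie_skew y (S x)]
        abel }
  obtain ⟨ν, hν⟩ := LieDerivation.IsKilling.exists_eq_ad D
  have h1 : ∀ x, S x = ⁅ν, x⁆ := fun x => by
    have h := congrArg (fun E : LieDerivation K L L => E x) hν
    have h' : LieDerivation.ad K L ν x = ⁅ν, x⁆ := LieDerivation.ad_apply_apply K L ν x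
    exact (h'.symm.trans h).symm
  refine ⟨ν, h1, ?_⟩
  have hc : ∀ x, S (φL x) = φL (S x) := fun x => by
    have := (fop_comm (Commute.refl (en φL.toLinearEquiv)) (fun e => (w e : K))).eq
    exact (congrArg (fun f : Module.End K L => f x) this).symm
  have h2 : ∀ y : L, ⁅y, φL ν - ν⁆ = 0 := by
    intro y
    obtain ⟨x, rfl⟩ := φL.surjective y
    have h3 := hc x
    rw [h1, h1, LieEquiv.map_lie] at h3
    change ⁅φL x, φL ν - ν⁆ = 0
    rw [lie_sub, ← lie_skew (φL x) (φL ν), ← lie_skew (φL x) ν, h3]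
    abel
  have h3 : φL ν - ν ∈ LieAlgebra.center K L := by
    rw [LieModule.mem_maxTrivSubmodule]
    exact h2
  rw [LieAlgebra.center_eq_bot, LieSubmodule.mem_bot] at h3
  exact sub_eq_zero.1 h3

/-- The slope operator of `H` differs from `ρ ν` by an operator which commutes with `L`. -/
lemma comm_T (ρ : L →ₗ[K] Module.End K H)
    (hbr : ∀ x y, ρ ⁅x, y⁆ = ρ x * ρ y - ρ y * ρ x) (φ : H ≃ₗ[K] H) (φL : L ≃ₗ⁅K⁆ L)
    (heq : ∀ x h, φ (ρ x h) = ρ (φL x) (φ h)) (w : K → ℚ)
    (hw : ∀ x y, x ≠ 0 → y ≠ 0 → w (x * y) = w x + w y) {ν : L}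
    (hν : ∀ x, fop (en φL.toLinearEquiv) (fun e => (w e : K)) x = ⁅ν, x⁆) (x : L) :
    Commute (ρ x) (fop (en φ) (fun e => (w e : K)) - ρ ν) := by
  have h := fop_bil (φ₁ := φL.toLinearEquiv) (φ₂ := φ) (φ₃ := φ) ρ heq w hw x
  set S := fop (en φ) (fun e => (w e : K)) with hS
  have h1 : ∀ y, S (ρ x y) = ρ ⁅ν, x⁆ y + ρ x (S y) := fun y => by
    rw [← hν]; exact h y
  change ρ x * (S - ρ ν) = (S - ρ ν) * ρ x
  ext y
  have h2 : ρ ⁅ν, x⁆ y = ρ ν (ρ x y) - ρ x (ρ ν y) := by
    rw [hbr]; rfl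
  change ρ x (S y - ρ ν y) = S (ρ x y) - ρ ν (ρ x y)
  rw [h1, h2, map_sub]
  abel

/-- The representation of `L` is irreducible, or it has an invariant form such that `φ` is a
similitude and the endomorphisms commuting with `L` are selfadjoint. -/
def Rig (ρ : L →ₗ[K] Module.End K H) (φ : H ≃ₗ[K] H) : Prop :=
  (∀ T : Module.End K H, (∀ x, Commute (ρ x) T) → ∃ t : K, T = t • 1) ∨ ∃ b : LinearMap.BilinForm K H, b.Nondegenerate ∧
    (∀ x u v, b (ρ x u) v + b u (ρ x v) = 0) ∧ (∃ m : K, ∀ u v, b (φ u) (φ v) = m * b u v) ∧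
    ∀ T : Module.End K H, (∀ x, Commute (ρ x) T) → ∀ u v, b (T u) v = b u (T v)

/-- **Second moments of the slopes.** -/
lemma moment (ρ : L →ₗ[K] Module.End K H)
    (hbr : ∀ x y, ρ ⁅x, y⁆ = ρ x * ρ y - ρ y * ρ x) (φ : H ≃ₗ[K] H) (φL : L ≃ₗ⁅K⁆ L)
    (heq : ∀ x h, φ (ρ x h) = ρ (φL x) (φ h)) (w : K → ℚ)
    (hw : ∀ x y, x ≠ 0 → y ≠ 0 → w (x * y) = w x + w y) {ν : L}
    (hν : ∀ x, fop (en φL.toLinearEquiv) (fun e => (w e : K)) x = ⁅ν, x⁆) (hν2 : φL ν = ν)
    (κ : ℚ) :
    ∃ r : ℚ, 0 ≤ r ∧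
      ((en φ).charpoly.roots.map (fun e => (((w e - κ) * (w e - κ) : ℚ) : K))).sum =
        LinearMap.trace K H (ρ ν * ρ ν) + r ∧
      (Rig ρ φ →
        ((en φ).charpoly.roots.map (fun e => ((w e - κ : ℚ) : K))).sum = 0 → r = 0) := by
  have hc := comm_T ρ hbr φ φL heq w hw hν
  set S := fop (en φ) (fun e => (w e : K)) with hS
  have hSκ : fop (en φ) (fun e => ((w e - κ : ℚ) : K)) = S - (κ : K) • 1 := by
    have : (fun e => ((w e - κ : ℚ) : K)) = fun e => (w e : K) - ((κ : ℚ) : K) := by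
      ext e; rw [Rat.cast_sub]
    rw [this, fop_sub, fop_const]
  set T := S - (κ : K) • 1 - ρ ν with hT
  have hcT : ∀ x, Commute (ρ x) T := fun x => by
    have h1 : T = (S - ρ ν) - (κ : K) • 1 := by rw [hT]; abel
    rw [h1]
    exact (hc x).sub_right ((Commute.one_right _).smul_right _)
  have hφν : Commute (ρ ν) (en φ) := by
    change ρ ν * (en φ) = (en φ) * ρ ν
    ext y
    change ρ ν (φ y) = φ (ρ ν y)
    rw [heq, hν2]
  have hTφ : Commute T (en φ) := by
    refine Commute.sub_left (Commute.sub_left ?_ ?_) hφν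
    · exact (fop_comm (Commute.refl (en φ)) (fun e => (w e : K))).symm
    · exact (Commute.one_left _).smul_left _
  have hdec : fop (en φ) (fun e => ((w e - κ : ℚ) : K)) = ρ ν + T := by
    rw [hSκ, hT]; abel
  obtain ⟨r, hr0, hr, -⟩ := second (w := fun e => w e - κ) hdec hTφ fun z hz =>
    tr_rho_zero ρ hbr (fun x => hz _ (hcT x)) ν
  refine ⟨r, hr0, hr, fun hrig h0 => ?_⟩
  have hTr : LinearMap.trace K H T = 0 := by
    have h1 := tr_fop (en φ) (fun e => ((w e - κ : ℚ) : K))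
    rw [h0, hdec, map_add] at h1
    have h2 := tr_rho_zero ρ hbr (z := 1) (fun x => Commute.one_right _) ν
    rw [mul_one] at h2
    rw [h2, zero_add] at h1
    exact h1
  -- `T` is a scalar
  have hscal : ∃ t : K, T = t • 1 := by
    rcases hrig with hirr | ⟨b, hnd, hskew, ⟨m, hm⟩, hself⟩
    · exact hirr T hcT
    · let W : Wt K :=
        { U := fun x => x ≠ 0
          ne := fun _ h => h
          mul := fun _ _ => mul_ne_zero
          inv := fun _ => inv_ne_zero
          w := w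
          w_mul := hw }
      have h1 : Skew b (S - ((w m / 2 : ℚ) : K) • 1) :=
        skew_fop (q := b) hm W (fun e he => root_ne he)
      set T' := S - ((w m / 2 : ℚ) : K) • 1 - ρ ν with hT'
      have h2 : ∀ x, Commute (ρ x) T' := fun x => by
        have h1 : T' = (S - ρ ν) - ((w m / 2 : ℚ) : K) • 1 := by rw [hT']; abel
        rw [h1]
        exact (hc x).sub_right ((Commute.one_right _).smul_right _)
      have h3 : ∀ u v, b (T' u) v + b u (T' v) = 0 := by
        intro u v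
        have h4 := h1 u v
        have h5 := hskew ν u v
        have h6 : T' u = (S - ((w m / 2 : ℚ) : K) • 1) u - ρ ν u := rfl
        have h7 : T' v = (S - ((w m / 2 : ℚ) : K) • 1) v - ρ ν v := rfl
        rw [h6, h7, map_sub, map_sub, LinearMap.sub_apply]
        linear_combination h4 - h5
      have h4 : T' = 0 := by
        ext u
        refine hnd.1 _ fun v => ?_
        have h5 := h3 u v
        rw [← hself T' h2 u v, ← two_mul] at h5
        exact (mul_eq_zero.1 h5).resolve_left two_ne_zero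
      refine ⟨((w m / 2 : ℚ) : K) - (κ : K), ?_⟩
      have h5 : T = T' + (((w m / 2 : ℚ) : K) - (κ : K)) • 1 := by
        rw [hT, hT', sub_smul]; abel
      rw [h5, h4, zero_add]
  have hT0 : T = 0 := by
    rcases subsingleton_or_nontrivial H with hs | hn
    · exact LinearMap.ext fun x => Subsingleton.elim _ _
    obtain ⟨t, hTt⟩ := hscal
    rw [hTt, map_smul, LinearMap.trace_one, smul_eq_mul] at hTr
    have hpos : (finrank K H : K) ≠ 0 := by
      exact_mod_cast (finrank_pos (R := K) (M := H)).ne'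
    rw [hTt, (mul_eq_zero.1 hTr).resolve_right hpos, zero_smul]
  have h3 : ((en φ).charpoly.roots.map (fun e => (((w e - κ) * (w e - κ) : ℚ) : K))).sum =
      LinearMap.trace K H (ρ ν * ρ ν) := by
    rw [← tr_fop]
    have h4 : (fun e => (((w e - κ) * (w e - κ) : ℚ) : K)) =
        fun e => ((w e - κ : ℚ) : K) * ((w e - κ : ℚ) : K) := by
      ext e; rw [Rat.cast_mul]
    rw [h4, ← fop_mul, hdec, hT0, add_zero]
  have h4 : ((r : ℚ) : K) = 0 := by
    rw [h3] at hr
    have h5 := hr.symm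
    exact add_eq_left.1 h5
  exact_mod_cast h4

end main

end Pool.Agent.V7H61.LieOrd
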