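import Pool.Agent.W528.Ord.Galois

/-!
# Algebras of functions on a profinite group, and sets of places of density zero
-/

set_option autoImplicit false
set_option linter.all false

namespace Pool.Agent.V7H61.LieOrd

open MeasureTheory Topology Filter NumberField IsDedekindDomain Polynomial
open Pool.Agent.W401.Cheb Pool.Agent.W528.Ord

section alg

variable {G Ω : Type} [Group G] [Field Ω]

lemma adjoin_noeth {R : Type} [CommRing R] [Algebra Ω R] (T : Set R)
    (hT : (Submodule.span Ω T).FG) : IsNoetherianRing (Algebra.adjoin Ω T) := by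
  obtain ⟨F, hF⟩ := hT
  have h1 : Algebra.adjoin Ω T = Algebra.adjoin Ω (F : Set R) := by
    have e1 : Algebra.adjoin Ω ((Submodule.span Ω T : Submodule Ω R) : Set R) =
      Algebra.adjoin Ω T := Algebra.adjoin_span Ω
    have e2 : Algebra.adjoin Ω ((Submodule.span Ω (F : Set R) : Submodule Ω R) : Set R) =
      Algebra.adjoin Ω (F : Set R) := Algebra.adjoin_span Ω
    rw [← e1, ← hF, e2]
  rw [h1]
  haveI : Algebra.FiniteType Ω (Algebra.adjoin Ω (F : Set R)) :=
    (Subalgebra.fg_iff_finiteType _).1 (Subalgebra.fg_adjoin_finset F)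
  exact Algebra.FiniteType.isNoetherianRing Ω _

lemma adjoin_trans (T : Set (G → Ω)) (hT : ∀ g : G, ∀ F ∈ T, (fun x => F (g * x)) ∈
    Algebra.adjoin Ω T) (g : G) (F : G → Ω) (hF : F ∈ Algebra.adjoin Ω T) :
    (fun x => F (g * x)) ∈ Algebra.adjoin Ω T := by
  induction hF using Algebra.adjoin_induction with
  | mem F hF => exact hT g F hF
  | algebraMap c => exact Subalgebra.algebraMap_mem _ c
  | add F F' _ _ h h' => exact Subalgebra.add_mem _ h h'
  | mul F F' _ _ h h' => exact Subalgebra.mul_mem _ h h'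

lemma adjoin_cont [TopologicalSpace G] [TopologicalSpace Ω] [IsTopologicalRing Ω]
    (T : Set (G → Ω)) (hT : ∀ F ∈ T, Continuous F) (F : G → Ω) (hF : F ∈ Algebra.adjoin Ω T) :
    Continuous F := by
  induction hF using Algebra.adjoin_induction with
  | mem F hF => exact hT F hF
  | algebraMap c => exact continuous_const
  | add F F' _ _ h h' => exact h.add h'
  | mul F F' _ _ h h' => exact h.mul h'

end alg

section

variable {K : Type} [Field K] [NumberField K] {Ω : Type} [Field Ω]

/-- open normal subgroups in an open neighbourhood -/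
lemma exists_normal (O : Set (GK K)) (hO : IsOpen O) (h1 : 1 ∈ O) :
    ∃ U : OpenNormalSubgroup (GK K), (U.toSubgroup : Set (GK K)) ⊆ O :=
  ProfiniteGrp.exist_openNormalSubgroup_sub_open_nhds_of_one hO h1

/-- There is an open normal subgroup over which the monodromy is connected: a function of the algebra
which is zero on a coset of an open subgroup in `U` is zero on `U`. -/
lemma exists_conn (A : Subalgebra Ω (GK K → Ω)) [IsNoetherianRing A]
    (hA : ∀ g : GK K, ∀ F ∈ A, (fun x => F (g * x)) ∈ A) :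
    ∃ U : OpenNormalSubgroup (GK K), ∀ F ∈ A, ∀ γ ∈ U, ∀ V : Subgroup (GK K),
      IsOpen (V : Set (GK K)) → (∀ x ∈ V, F (γ * x) = 0) → ∀ u ∈ U, F u = 0 := by
  classical
  let I : OpenNormalSubgroup (GK K) → Ideal A := fun U =>
    { carrier := {F | ∀ u ∈ U, (F : GK K → Ω) u = 0}
      zero_mem' := fun u _ => rfl
      add_mem' := fun {a b} ha hb u hu => by
        change (a : GK K → Ω) u + (b : GK K → Ω) u = 0
        rw [ha u hu, hb u hu, add_zero]
      smul_mem' := fun c {a} ha u hu => by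
        change (c : GK K → Ω) u * (a : GK K → Ω) u = 0
        rw [ha u hu, mul_zero] }
  obtain ⟨U0, -⟩ := exists_normal (K := K) Set.univ isOpen_univ (Set.mem_univ _)
  obtain ⟨J, ⟨U, rfl⟩, hmax⟩ := WellFounded.has_min (wellFounded_gt (α := Ideal A))
    (Set.range I) ⟨I U0, U0, rfl⟩
  refine ⟨U, fun F hF γ hγ V hV h0 => ?_⟩
  obtain ⟨W, hW⟩ := exists_normal ((V : Set (GK K)) ∩ (U.toSubgroup : Set (GK K)))
    (hV.inter U.isOpen') ⟨one_mem _, one_mem _⟩
  have hle : I U ≤ I W := fun F hF u hu => hF u (hW hu).2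
  have heq : I U = I W := by
    by_contra hne
    exact hmax (I W) ⟨W, rfl⟩ (lt_of_le_of_ne hle hne)
  have h1 : (⟨fun x => F (γ * x), hA γ F hF⟩ : A) ∈ I W := fun u hu => h0 u (hW hu).1
  rw [← heq] at h1
  intro u hu
  have h2 := h1 (γ⁻¹ * u) (mul_mem (inv_mem hγ) hu)
  change F (γ * (γ⁻¹ * u)) = 0 at h2
  rwa [mul_inv_cancel_left] at h2

variable [TopologicalSpace Ω] [IsTopologicalRing Ω] [T2Space Ω]

/-- Zero sets of class functions over `U` have density zero. -/
lemma dens_zero (T : Set (GK K → Ω)) (hfg : (Submodule.span Ω T).FG)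
    (hT : ∀ g : GK K, ∀ F ∈ T, (fun x => F (g * x)) ∈ Algebra.adjoin Ω T)
    (hc : ∀ F ∈ T, Continuous F) (U : OpenNormalSubgroup (GK K))
    (hU : ∀ F ∈ Algebra.adjoin Ω T, ∀ γ ∈ U, ∀ V : Subgroup (GK K),
      IsOpen (V : Set (GK K)) → (∀ x ∈ V, F (γ * x) = 0) → ∀ u ∈ U, F u = 0)
    (F : GK K → Ω) (hF : F ∈ Algebra.adjoin Ω T) (hcl : ∀ σ τ : GK K, F (τ * σ * τ⁻¹) = F σ)
    (hne : ∃ u ∈ U, F u ≠ 0) :
    Tendsto (dens fun v : HeightOneSpectrum (𝓞 K) => ∃ σ ∈ U, F σ = 0 ∧ IsFrob v σ) atTop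
      (𝓝 0) := by
  classical
  have hUo : IsOpen (U.toSubgroup : Set (GK K)) := U.isOpen'
  haveI hUfin : Finite (GK K ⧸ U.toSubgroup) := Subgroup.quotient_finite_of_isOpen _ hUo
  let ind : GK K ⧸ U.toSubgroup → GK K → Ω := fun q x =>
    if (QuotientGroup.mk x : GK K ⧸ U.toSubgroup) = q then 1 else 0
  let T' : Set (GK K → Ω) := T ∪ Set.range ind
  have hTT' : Algebra.adjoin Ω T ≤ Algebra.adjoin Ω T' := Algebra.adjoin_mono Set.subset_union_left
  have hfg' : (Submodule.span Ω T').FG := by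
    rw [Submodule.span_union]
    exact hfg.sup (Submodule.fg_span (Set.finite_range ind))
  have hind : ∀ (g : GK K) (q : GK K ⧸ U.toSubgroup), (fun x => ind q (g * x)) =
      ind ((g⁻¹ : GK K) • q) := by
    intro g q
    funext x
    change (if (QuotientGroup.mk (g * x) : GK K ⧸ U.toSubgroup) = q then (1 : Ω) else 0) =
      (if (QuotientGroup.mk x : GK K ⧸ U.toSubgroup) = (g⁻¹ : GK K) • q then 1 else 0)
    have h1 : (QuotientGroup.mk (g * x) : GK K ⧸ U.toSubgroup) = g • (QuotientGroup.mk x) := rfl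
    rw [h1]
    congr 1
    exact propext (by rw [eq_inv_smul_iff])
  have htr' : ∀ g : GK K, ∀ F ∈ T', (fun x => F (g * x)) ∈ Algebra.adjoin Ω T' := by
    rintro g F (hF | ⟨q, rfl⟩)
    · exact hTT' (hT g F hF)
    · rw [hind]
      exact Algebra.subset_adjoin (Or.inr ⟨_, rfl⟩)
  have hc' : ∀ F ∈ T', Continuous F := by
    rintro F (hF | ⟨q, rfl⟩)
    · exact hc F hF
    · refine IsLocallyConstant.continuous ?_
      refine (IsLocallyConstant.iff_exists_open _).2 fun x => ?_
      refine ⟨(fun y => x⁻¹ * y) ⁻¹' (U.toSubgroup : Set (GK K)),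
        hUo.preimage (continuous_mul_left _), by simp, fun y hy => ?_⟩
      have h1 : (QuotientGroup.mk x : GK K ⧸ U.toSubgroup) = QuotientGroup.mk y :=
        QuotientGroup.eq.2 hy
      change (if _ then _ else _) = (if _ then _ else _)
      rw [h1]
  haveI := adjoin_noeth T' hfg'
  -- the modified function
  let F' : GK K → Ω := F * ind (QuotientGroup.mk 1) + (1 - ind (QuotientGroup.mk 1))
  have hF' : F' ∈ Algebra.adjoin Ω T' := by
    have h1 : ind (QuotientGroup.mk 1) ∈ Algebra.adjoin Ω T' :=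
      Algebra.subset_adjoin (Or.inr ⟨_, rfl⟩)
    exact Subalgebra.add_mem _ (Subalgebra.mul_mem _ (hTT' hF) h1)
      (Subalgebra.sub_mem _ (Subalgebra.one_mem _) h1)
  have hmk : ∀ x : GK K, (QuotientGroup.mk x : GK K ⧸ U.toSubgroup) = QuotientGroup.mk 1 ↔
      x ∈ U.toSubgroup := by
    intro x
    rw [eq_comm, QuotientGroup.eq]
    simp
  have hFU : ∀ x ∈ U.toSubgroup, F' x = F x := by
    intro x hx
    change F x * (if _ then _ else _) + (1 - (if _ then _ else _)) = F x
    rw [if_pos ((hmk x).2 hx)]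
    simp
  have hFn : ∀ x, x ∉ U.toSubgroup → F' x = 1 := by
    intro x hx
    change F x * (if _ then _ else _) + (1 - (if _ then _ else _)) = 1
    rw [if_neg fun h => hx ((hmk x).1 h)]
    simp
  letI : MeasurableSpace (GK K) := borel (GK K)
  haveI : BorelSpace (GK K) := ⟨rfl⟩
  let μ : Measure (GK K) := Measure.haarMeasure ⊤
  haveI : IsProbabilityMeasure μ := ⟨by
    have := Measure.haarMeasure_self (K₀ := (⊤ : TopologicalSpace.PositiveCompacts (GK K)))
    exact this⟩
  have hcont := adjoin_cont T' hc'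
  by_cases h0 : μ {g | F' g = 0} = 0
  · have hcl' : IsClosed {g | F' g = 0} := isClosed_eq (hcont F' hF') continuous_const
    have hmemU : ∀ g ∈ {g | F' g = 0}, g ∈ U.toSubgroup := by
      intro g hg
      by_contra hgU
      have : F' g = 0 := hg
      rw [hFn g hgU] at this
      exact one_ne_zero this
    have h1 := dens_null μ {g | F' g = 0} hcl' (fun σ hσ τ => by
      have hσU := hmemU σ hσ
      have h2 : τ * σ * τ⁻¹ ∈ U.toSubgroup := U.isNormal'.conj_mem σ hσU τ
      have h3 : F' σ = 0 := hσ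
      change F' (τ * σ * τ⁻¹) = 0
      rw [hFU _ h2, hcl, ← hFU _ hσU, h3]) h0
    refine squeeze_zero (fun N => dens_nonneg _ _) (fun N => ?_) h1
    refine dens_mono ?_ N
    rintro v ⟨σ, hσU, hσ0, hσ⟩
    exact ⟨σ, by change F' σ = 0; rw [hFU σ hσU, hσ0], hσ⟩
  · exfalso
    obtain ⟨V, γ, hV, hVγ⟩ := coset_of_pos μ (Algebra.adjoin Ω T') (adjoin_trans T' htr') hcont
      F' hF' h0
    have hγ : γ ∈ U.toSubgroup := by
      by_contra hγ
      have h1 := hVγ 1 (one_mem _)
      rw [mul_one, hFn γ hγ] at h1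
      exact one_ne_zero h1
    obtain ⟨u, hu, huF⟩ := hne
    refine huF (hU F hF γ hγ (V ⊓ U.toSubgroup) (hV.inter hUo) ?_ u hu)
    intro x hx
    have h1 := hVγ x hx.1
    rwa [hFU _ (mul_mem hγ hx.2)] at h1

end

end Pool.Agent.V7H61.LieOrd
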