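import Pool.Agent.V7H61.LieOrd.Simple

/-!
# The closure under links and tensor operations
-/

set_option autoImplicit false
set_option linter.all false

namespace Pool.Agent.V7H61.LieOrd

open Module Polynomial NumberField IsDedekindDomain
open Pool.Agent.W401.Cheb Pool.Agent.N184.HK

/-- sum of squares -/
def sq (S : Multiset ℚ) : ℚ := (S.map fun x => x ^ 2).sum

lemma sq_fin {n : ℕ} (s : Fin n → ℚ) : ∑ j, s j ^ 2 = sq (Finset.univ.val.map s) := by
  rw [sq, Multiset.map_map]; rfl

lemma sum_fin {n : ℕ} (s : Fin n → ℚ) : ∑ j, s j = (Finset.univ.val.map s).sum := rfl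

lemma sq_add (S T : Multiset ℚ) : sq (S + T) = sq S + sq T := by
  rw [sq, Multiset.map_add, Multiset.sum_add]; rfl

lemma sq_sum {β : Type} (s : Finset β) (S : β → Multiset ℚ) :
    sq (∑ i ∈ s, S i) = ∑ i ∈ s, sq (S i) := by
  classical
  induction s using Finset.induction_on with
  | empty => simp [sq]
  | insert a s ha ih => rw [Finset.sum_insert ha, Finset.sum_insert ha, sq_add, ih]

lemma sq_neg (S : Multiset ℚ) : sq (S.map fun x => -x) = sq S := by
  rw [sq, sq, Multiset.map_map]
  congr 1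
  exact Multiset.map_congr rfl fun x _ => by simp

lemma sq_prod (S T : Multiset ℚ) : sq ((S ×ˢ T).map fun x => x.1 + x.2) =
    Multiset.card T * sq S + Multiset.card S * sq T + 2 * S.sum * T.sum := by
  induction S using Multiset.induction_on with
  | empty => simp [sq]
  | cons a S ih =>
    rw [Multiset.cons_product, Multiset.map_add, sq_add, ih, Multiset.map_map]
    have h1 : ∀ T : Multiset ℚ, sq (T.map ((fun x : ℚ × ℚ => x.1 + x.2) ∘ Prod.mk a)) =
        Multiset.card T * a ^ 2 + sq T + 2 * a * T.sum := by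
      intro T
      induction T using Multiset.induction_on with
      | empty => simp [sq]
      | cons b T ih =>
        have e : sq (b ::ₘ T) = b ^ 2 + sq T := by
          rw [sq, Multiset.map_cons, Multiset.sum_cons]; rfl
        have e2 : sq ((b ::ₘ T).map ((fun x : ℚ × ℚ => x.1 + x.2) ∘ Prod.mk a)) = (a + b) ^ 2 +
            sq (T.map ((fun x : ℚ × ℚ => x.1 + x.2) ∘ Prod.mk a)) := by
          rw [sq, Multiset.map_cons, Multiset.map_cons, Multiset.sum_cons]; rfl
        rw [e, e2, ih, Multiset.card_cons, Multiset.sum_cons]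
        push_cast
        ring
    have e : sq (a ::ₘ S) = a ^ 2 + sq S := by
      rw [sq, Multiset.map_cons, Multiset.sum_cons]; rfl
    rw [h1, e, Multiset.card_cons, Multiset.sum_cons]
    push_cast
    ring

lemma product_map {α β : Type} (f : α → β) (S T : Multiset α) :
    (S.map f) ×ˢ (T.map f) = (S ×ˢ T).map (Prod.map f f) := by
  induction S using Multiset.induction_on with
  | empty => simp
  | cons a S ih =>
    rw [Multiset.map_cons, Multiset.cons_product, Multiset.cons_product, Multiset.map_add, ih,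
      Multiset.map_map, Multiset.map_map]
    rfl

section

variable {K : Type} [Field K] [NumberField K] {ℓ : ℕ} [Fact ℓ.Prime]

lemma IsNewton.sq_eq {C V : Type} [Field C] [AddCommGroup V] [Module C V] [FiniteDimensional C V]
    {n : ℕ} {val : AddValuation C (WithTop ℚ)} {φ : Module.End C V} {s : Fin n → ℚ}
    (h : IsNewton val φ s) : ∑ j, s j ^ 2 = sq (φ.charpoly.roots.map (vw val)) := by
  rw [sq_fin, h.slopes']

lemma IsNewton.sum_eq {C V : Type} [Field C] [AddCommGroup V] [Module C V] [FiniteDimensional C V]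
    {n : ℕ} {val : AddValuation C (WithTop ℚ)} {φ : Module.End C V} {s : Fin n → ℚ}
    (h : IsNewton val φ s) : ∑ j, s j = (φ.charpoly.roots.map (vw val)).sum := by
  rw [sum_fin, h.slopes']

/-- The defect of `M` at a Frobenius element and a valuation. -/
noncomputable def dft (M : IHGroup K ℓ) (val : AddValuation (PadicAlgCl ℓ) (WithTop ℚ))
    (σ : GK K) : ℚ :=
  ∑ j, M.hs j ^ 2 - sq ((M.r σ⁻¹).charpoly.roots.map (vw val))

lemma dft_eq {M : IHGroup K ℓ} {val : AddValuation (PadicAlgCl ℓ) (WithTop ℚ)} {σ : GK K}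
    {s : Fin M.n → ℚ} (hs : IsNewton val (M.r σ⁻¹) s) :
    dft M val σ = ∑ j, M.hs j ^ 2 - ∑ j, s j ^ 2 := by
  rw [dft, hs.sq_eq]

lemma dft_nonneg {M : IHGroup K ℓ} {v : HeightOneSpectrum (𝓞 K)} (hv : v ∉ M.bad) {σ : GK K}
    (hσ : IsFrob v σ) {val : AddValuation (PadicAlgCl ℓ) (WithTop ℚ)}
    (hval : val (Ideal.absNorm v.asIdeal : PadicAlgCl ℓ) = 1) : 0 ≤ dft M val σ := by
  obtain ⟨s, hs⟩ := exists_newton val (M.eq σ⁻¹) M.dim
  rw [dft_eq hs]
  exact (eq_of_sq hv hσ hval hs).1

/-- `v` is ordinary if and only if the defects are zero. -/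
lemma ordinary_iff {M : IHGroup K ℓ} {v : HeightOneSpectrum (𝓞 K)} (hv : v ∉ M.bad) :
    M.Ordinary v ↔ ∀ σ, IsFrob v σ → ∀ val : AddValuation (PadicAlgCl ℓ) (WithTop ℚ),
      val (Ideal.absNorm v.asIdeal : PadicAlgCl ℓ) = 1 → dft M val σ = 0 := by
  constructor
  · intro h σ hσ val hval
    rw [dft_eq (h.2 σ hσ val hval), sub_self]
  · intro h
    refine ⟨hv, fun σ hσ val hval => ?_⟩
    obtain ⟨s, hs⟩ := exists_newton val (M.eq σ⁻¹) M.dim
    have h1 := h σ hσ val hval
    rw [dft_eq hs] at h1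
    have h2 := (eq_of_sq hv hσ hval hs).2 h1.le
    rw [← h2]
    exact hs

/-- The end points agree. -/
lemma ends_eq {M : IHGroup K ℓ} {v : HeightOneSpectrum (𝓞 K)} (hv : v ∉ M.bad) {σ : GK K}
    (hσ : IsFrob v σ) {val : AddValuation (PadicAlgCl ℓ) (WithTop ℚ)}
    (hval : val (Ideal.absNorm v.asIdeal : PadicAlgCl ℓ) = 1) :
    ((M.r σ⁻¹).charpoly.roots.map (vw val)).sum = (Finset.univ.val.map M.hs).sum := by
  obtain ⟨s, hs⟩ := exists_newton val (M.eq σ⁻¹) M.dim
  rw [IHGroup.en_eq] at hs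
  rw [← hs.sum_eq, (M.above v hv σ hσ val hval s hs).2]
  rfl

lemma card_roots' (M : IHGroup K ℓ) (σ : GK K) :
    Multiset.card (M.r σ).charpoly.roots = M.n := by
  rw [← (IsAlgClosed.splits _).natDegree_eq_card_roots, LinearMap.charpoly_natDegree, M.dim]

lemma dft_sum {β : Type} [Fintype β] {M : β → IHGroup K ℓ} {B : IHGroup K ℓ} (h : IsSum M B)
    (val : AddValuation (PadicAlgCl ℓ) (WithTop ℚ)) (σ : GK K) :
    dft B val σ = ∑ i, dft (M i) val σ := by
  have h1 : (∑ i, ((M i).r σ⁻¹).charpoly.roots).map (vw val) =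
      ∑ i, ((M i).r σ⁻¹).charpoly.roots.map (vw val) :=
    map_sum (Multiset.mapAddMonoidHom (vw val)) _ _
  have h2 : (B.r σ⁻¹).charpoly.roots = ∑ i, ((M i).r σ⁻¹).charpoly.roots := h.1 σ⁻¹
  have h3 : Finset.univ.val.map B.hs = ∑ i, Finset.univ.val.map (M i).hs := h.2
  unfold dft
  rw [sq_fin, h2, h3, h1, sq_sum, sq_sum, ← Finset.sum_sub_distrib]
  exact Finset.sum_congr rfl fun i _ => by rw [sq_fin]

lemma dft_dual {M B : IHGroup K ℓ} (h : IsDual M B)
    (val : AddValuation (PadicAlgCl ℓ) (WithTop ℚ)) (σ : GK K) :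
    dft B val σ = dft M val σ := by
  have h1 : ((M.r σ⁻¹).charpoly.roots.map fun x => x⁻¹).map (vw val) =
      ((M.r σ⁻¹).charpoly.roots.map (vw val)).map fun x => -x := by
    rw [Multiset.map_map, Multiset.map_map]
    refine Multiset.map_congr rfl fun x hx => ?_
    have hx0 : x ≠ 0 := root_ne (φ := M.eq σ⁻¹) hx
    have h2 := vw_mul val x x⁻¹ hx0 (inv_ne_zero hx0)
    rw [mul_inv_cancel₀ hx0] at h2
    have h3 : vw val 1 = 0 := by rw [vw, val.map_one]; simp
    rw [h3] at h2
    change vw val x⁻¹ = - vw val x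
    linarith
  have h2 : (B.r σ⁻¹).charpoly.roots = (M.r σ⁻¹).charpoly.roots.map fun x => x⁻¹ := h.1 σ⁻¹
  have h3 : Finset.univ.val.map B.hs = (Finset.univ.val.map M.hs).map fun x => -x := h.2
  unfold dft
  rw [sq_fin, sq_fin, h2, h3, h1, sq_neg, sq_neg]

lemma dft_tensor {M N B : IHGroup K ℓ} (h : IsTensor M N B) {v : HeightOneSpectrum (𝓞 K)}
    (hM : v ∉ M.bad) (hN : v ∉ N.bad) {σ : GK K} (hσ : IsFrob v σ)
    {val : AddValuation (PadicAlgCl ℓ) (WithTop ℚ)}
    (hval : val (Ideal.absNorm v.asIdeal : PadicAlgCl ℓ) = 1) :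
    dft B val σ = N.n * dft M val σ + M.n * dft N val σ := by
  have h1 : (((M.r σ⁻¹).charpoly.roots ×ˢ (N.r σ⁻¹).charpoly.roots).map fun x => x.1 * x.2).map
      (vw val) = ((M.r σ⁻¹).charpoly.roots.map (vw val) ×ˢ
        (N.r σ⁻¹).charpoly.roots.map (vw val)).map fun x => x.1 + x.2 := by
    rw [Multiset.map_map, product_map, Multiset.map_map]
    refine Multiset.map_congr rfl fun x hx => ?_
    obtain ⟨hx1, hx2⟩ := Multiset.mem_product.1 hx
    exact vw_mul val _ _ (root_ne (φ := M.eq σ⁻¹) hx1) (root_ne (φ := N.eq σ⁻¹) hx2)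
  have h2 : (B.r σ⁻¹).charpoly.roots =
      ((M.r σ⁻¹).charpoly.roots ×ˢ (N.r σ⁻¹).charpoly.roots).map fun x => x.1 * x.2 := h.1 σ⁻¹
  have h3 : Finset.univ.val.map B.hs =
      (Finset.univ.val.map M.hs ×ˢ Finset.univ.val.map N.hs).map fun x => x.1 + x.2 := h.2
  unfold dft
  rw [sq_fin, sq_fin, sq_fin, h2, h3, h1, sq_prod, sq_prod, ends_eq hM hσ hval,
    ends_eq hN hσ hval]
  simp only [Multiset.card_map, card_roots', Finset.card_val, Finset.card_univ, Fintype.card_fin]
  ring

lemma const_ordinary {M : IHGroup K ℓ} (h : ∀ i j, M.hs i = M.hs j)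
    {v : HeightOneSpectrum (𝓞 K)} (hv : v ∉ M.bad) : M.Ordinary v := by
  refine ⟨hv, fun σ hσ val hval => ?_⟩
  obtain ⟨s, hs⟩ := exists_newton val (M.eq σ⁻¹) M.dim
  rw [IHGroup.en_eq] at hs
  have hab := M.above v hv σ hσ val hval s hs
  have h1 : s = M.hs := by
    rcases Nat.eq_zero_or_pos M.n with hn | hn
    · ext j
      exact absurd j.isLt (by omega)
    · have a1 := hab.1 1
      have f1 : Finset.univ.filter (fun j : Fin M.n => (j : ℕ) < 1) = {⟨0, hn⟩} := by
        ext j
        simp only [Finset.mem_filter, Finset.mem_univ, true_and, Finset.mem_singleton,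
          Fin.ext_iff]
        omega
      rw [f1, Finset.sum_singleton, Finset.sum_singleton] at a1
      have h2 : ∀ j ∈ Finset.univ, M.hs j ≤ s j := fun j _ => by
        rw [h j ⟨0, hn⟩]
        exact a1.trans (hs.1 (Fin.mk_le_of_le_val (Nat.zero_le _)))
      have h3 := (Finset.sum_eq_sum_iff_of_le h2).1 hab.2.symm
      ext j
      exact (h3 j (Finset.mem_univ j)).symm
  rw [← h1]
  exact hs

/-- If almost all places in `P` are ordinary for the `A a` then this is true for all members of the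
closure. -/
theorem finite_of_closure {ι : Type} {A : ι → IHGroup K ℓ} {P : Set (HeightOneSpectrum (𝓞 K))}
    (hP : ∀ v ∈ P, (Ideal.absNorm v.asIdeal).Prime)
    (hA : ∀ a, {v | v ∈ P ∧ ¬ (A a).Ordinary v}.Finite) {M : IHGroup K ℓ} (h : Closure A M) :
    {v | v ∈ P ∧ ¬ M.Ordinary v}.Finite := by
  induction h with
  | base a => exact hA a
  | split M h => exact h.subset fun v hv => ⟨hP v hv.1, hv.2⟩
  | const M h =>
    refine M.finite.subset fun v hv => ?_
    by_contra hb
    exact hv.2 (const_ordinary h hb)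
  | sum M B h hM ih =>
    refine (B.finite.union ((Set.finite_iUnion fun i => (ih i)))).subset fun v hv => ?_
    by_contra hb
    rw [Set.mem_union, not_or, Set.mem_iUnion, not_exists] at hb
    refine hv.2 ((ordinary_iff hb.1).2 fun σ hσ val hval => ?_)
    rw [dft_sum h]
    refine Finset.sum_eq_zero fun i _ => ?_
    have h1 : (M i).Ordinary v := by
      by_contra h2
      exact hb.2 i ⟨hv.1, h2⟩
    exact (ordinary_iff h1.1).1 h1 σ hσ val hval
  | summand M B h hB i ih =>
    refine (ih.union (Set.finite_iUnion fun i => (M i).finite)).subset fun v hv => ?_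
    by_contra hb
    rw [Set.mem_union, not_or, Set.mem_iUnion, not_exists] at hb
    have h1 : B.Ordinary v := by
      by_contra h2
      exact hb.1 ⟨hv.1, h2⟩
    refine hv.2 ((ordinary_iff (hb.2 i)).2 fun σ hσ val hval => ?_)
    have h2 := (ordinary_iff h1.1).1 h1 σ hσ val hval
    rw [dft_sum h] at h2
    exact (Finset.sum_eq_zero_iff_of_nonneg fun j _ => dft_nonneg (hb.2 j) hσ hval).1 h2 i
      (Finset.mem_univ i)
  | tensor M N B h hM hN ihM ihN =>
    refine (B.finite.union (ihM.union ihN)).subset fun v hv => ?_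
    by_contra hb
    rw [Set.mem_union, not_or, Set.mem_union, not_or] at hb
    have h1 : M.Ordinary v := by
      by_contra h2
      exact hb.2.1 ⟨hv.1, h2⟩
    have h2 : N.Ordinary v := by
      by_contra h2
      exact hb.2.2 ⟨hv.1, h2⟩
    refine hv.2 ((ordinary_iff hb.1).2 fun σ hσ val hval => ?_)
    rw [dft_tensor h h1.1 h2.1 hσ hval, (ordinary_iff h1.1).1 h1 σ hσ val hval,
      (ordinary_iff h2.1).1 h2 σ hσ val hval]
    ring
  | left M N B h hn hB ih =>
    refine (ih.union (M.finite.union N.finite)).subset fun v hv => ?_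
    by_contra hb
    rw [Set.mem_union, not_or, Set.mem_union, not_or] at hb
    have h1 : B.Ordinary v := by
      by_contra h2
      exact hb.1 ⟨hv.1, h2⟩
    refine hv.2 ((ordinary_iff hb.2.1).2 fun σ hσ val hval => ?_)
    have h2 := (ordinary_iff h1.1).1 h1 σ hσ val hval
    rw [dft_tensor h hb.2.1 hb.2.2 hσ hval] at h2
    have h3 := dft_nonneg hb.2.1 hσ hval
    have h4 := dft_nonneg hb.2.2 hσ hval
    have h5 : (0 : ℚ) < N.n := by exact_mod_cast Nat.pos_of_ne_zero hn
    have h6 : (0 : ℚ) ≤ M.n := by positivity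
    nlinarith [mul_nonneg h6 h4, mul_nonneg h5.le h3]
  | right M N B h hn hB ih =>
    refine (ih.union (M.finite.union N.finite)).subset fun v hv => ?_
    by_contra hb
    rw [Set.mem_union, not_or, Set.mem_union, not_or] at hb
    have h1 : B.Ordinary v := by
      by_contra h2
      exact hb.1 ⟨hv.1, h2⟩
    refine hv.2 ((ordinary_iff hb.2.2).2 fun σ hσ val hval => ?_)
    have h2 := (ordinary_iff h1.1).1 h1 σ hσ val hval
    rw [dft_tensor h hb.2.1 hb.2.2 hσ hval] at h2
    have h3 := dft_nonneg hb.2.1 hσ hval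
    have h4 := dft_nonneg hb.2.2 hσ hval
    have h5 : (0 : ℚ) < M.n := by exact_mod_cast Nat.pos_of_ne_zero hn
    have h6 : (0 : ℚ) ≤ N.n := by positivity
    nlinarith [mul_nonneg h6 h3, mul_nonneg h5.le h4]
  | dual M B h hM ih =>
    refine (ih.union B.finite).subset fun v hv => ?_
    by_contra hb
    rw [Set.mem_union, not_or] at hb
    have h1 : M.Ordinary v := by
      by_contra h2
      exact hb.1 ⟨hv.1, h2⟩
    refine hv.2 ((ordinary_iff hb.2).2 fun σ hσ val hval => ?_)
    rw [dft_dual h]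
    exact (ordinary_iff h1.1).1 h1 σ hσ val hval
  | link M B Λ hB i ih =>
    refine ((Set.finite_iUnion ih).union (Set.finite_iUnion fun i => (M i).finite)).subset
      fun v hv => ?_
    by_contra hb
    rw [Set.mem_union, not_or, Set.mem_iUnion, not_exists, Set.mem_iUnion, not_exists] at hb
    refine hv.2 (ordinary_of_link Λ hb.2 (fun c => ?_) i)
    by_contra h2
    exact hb.1 c ⟨hv.1, h2⟩
  | colink M B Λ hrig hc hM c ih =>
    refine ((Set.finite_iUnion ih).union (Set.finite_iUnion fun c => (B c).finite)).subset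
      fun v hv => ?_
    by_contra hb
    rw [Set.mem_union, not_or, Set.mem_iUnion, not_exists, Set.mem_iUnion, not_exists] at hb
    refine hv.2 (pieces_of_link Λ hrig hc hb.2 (fun i => ?_) c)
    by_contra h2
    exact hb.1 i ⟨hv.1, h2⟩
  | simple M B Λ hB ih =>
    refine (ih.union M.finite).subset fun v hv => ?_
    by_contra hb
    rw [Set.mem_union, not_or] at hb
    refine hv.2 (ordinary_of_simple Λ hb.2 ?_)
    by_contra h2
    exact hb.1 ⟨hv.1, h2⟩

end

end Pool.Agent.V7H61.LieOrd
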