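import Pool.Agent.W401.Cheb.AbsDefs
import Mathlib

/-!
# Intersection cohomology groups linked by the action of a semisimple Lie algebra: definitions

`K` is a number field, `GK K` its absolute Galois group, `ℓ` a prime, `PadicAlgCl ℓ` is `ℚ̄_ℓ`.
`IsFrob v σ` means that `σ` is an arithmetic Frobenius element at the place `v`; so `σ⁻¹` is a
geometric Frobenius element.
-/

set_option autoImplicit false

namespace Pool.Agent.V7H61.LieOrd

open Module Polynomial NumberField IsDedekindDomain
open Pool.Agent.W401.Cheb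

/-- The endomorphisms of `ℚ̄_ℓ ^ n`. -/
abbrev EN (ℓ : ℕ) [Fact ℓ.Prime] (n : ℕ) : Type :=
  Module.End (PadicAlgCl ℓ) (Fin n → PadicAlgCl ℓ)

/-- The increasing list `s` is the list of the valuations of the eigenvalues of `φ`, with
multiplicities: the slopes of the Newton polygon of the characteristic polynomial of `φ`. -/
def IsNewton {C V : Type} [Field C] [AddCommGroup V] [Module C V] [FiniteDimensional C V] {n : ℕ}
    (val : AddValuation C (WithTop ℚ)) (φ : Module.End C V) (s : Fin n → ℚ) : Prop :=
  Monotone s ∧ φ.charpoly.roots.map (fun e => val e) =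
    Finset.univ.val.map (fun j => ((s j : ℚ) : WithTop ℚ))

/-- The polygon with the increasing slopes `s` lies on or above the polygon with the increasing
slopes `t`, and they have the same end point. -/
def Above {n : ℕ} (s t : Fin n → ℚ) : Prop :=
  (∀ k : ℕ, ∑ j ∈ Finset.univ.filter (fun j : Fin n => (j : ℕ) < k), t j ≤
    ∑ j ∈ Finset.univ.filter (fun j : Fin n => (j : ℕ) < k), s j) ∧ ∑ j, s j = ∑ j, t j

/-- An intersection cohomology group `IH^m(X ⊗ K^s, ℚ̄_ℓ)` of a projective variety over `K`:

* `n` is the dimension, and `r` the action of the absolute Galois group in some basis;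
* `hs` is the increasing list of the Hodge-Tate weights, with multiplicities;
* outside of the finite set `bad` of places the Newton polygon of the geometric Frobenius elements
  `σ⁻¹` lies on or above the Hodge-Tate polygon, and they have the same end point (Katz-Messing,
  Mazur, Faltings, de Cataldo-Migliorini). Here `val` is any valuation of `ℚ̄_ℓ` with `val (N v) = 1`
  (for example the `p`-adic valuation for an isomorphism `ℚ̄_ℓ ≅ ℚ̄_p`). -/
structure IHGroup (K : Type) [Field K] [NumberField K] (ℓ : ℕ) [Fact ℓ.Prime] where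
  n : ℕ
  r : GK K →* EN ℓ n
  hs : Fin n → ℚ
  mono : Monotone hs
  bad : Set (HeightOneSpectrum (𝓞 K))
  finite : bad.Finite
  above : ∀ v, v ∉ bad → ∀ σ, IsFrob v σ → ∀ val : AddValuation (PadicAlgCl ℓ) (WithTop ℚ),
    val (Ideal.absNorm v.asIdeal : PadicAlgCl ℓ) = 1 → ∀ s : Fin n → ℚ,
    IsNewton val (r σ⁻¹) s → Above s hs

/-- A representation of the Lie algebra `L` on `ℚ̄_ℓ ^ n`. -/
structure Rep (ℓ : ℕ) [Fact ℓ.Prime] (L : Type) [LieRing L] [LieAlgebra (PadicAlgCl ℓ) L]
    (n : ℕ) where
  op : L → EN ℓ n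
  add : ∀ x y, op (x + y) = op x + op y
  smul : ∀ (c : PadicAlgCl ℓ) x, op (c • x) = c • op x
  bracket : ∀ x y, op ⁅x, y⁆ = op x * op y - op y * op x

section

variable {K : Type} [Field K] [NumberField K] {ℓ : ℕ} [Fact ℓ.Prime]

/-- The place `v` is ordinary for `M`: it is not bad, and the Newton polygon of the geometric
Frobenius elements at `v` is the Hodge-Tate polygon. -/
def IHGroup.Ordinary (M : IHGroup K ℓ) (v : HeightOneSpectrum (𝓞 K)) : Prop :=
  v ∉ M.bad ∧ ∀ σ, IsFrob v σ → ∀ val : AddValuation (PadicAlgCl ℓ) (WithTop ℚ),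
    val (Ideal.absNorm v.asIdeal : PadicAlgCl ℓ) = 1 → IsNewton val (M.r σ⁻¹) M.hs

/-- The eigenvalues of `σ`, with multiplicities. -/
noncomputable def IHGroup.eig (M : IHGroup K ℓ) (σ : GK K) : Multiset (PadicAlgCl ℓ) :=
  (M.r σ).charpoly.roots

/-- The Hodge-Tate weights, with multiplicities. -/
def IHGroup.wts (M : IHGroup K ℓ) : Multiset ℚ := Finset.univ.val.map M.hs

section rep

variable {L : Type} [LieRing L] [LieAlgebra (PadicAlgCl ℓ) L]

/-- The trace form of a representation. -/
noncomputable def Rep.form {n : ℕ} (ρ : Rep ℓ L n) (x y : L) : PadicAlgCl ℓ :=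
  LinearMap.trace (PadicAlgCl ℓ) (Fin n → PadicAlgCl ℓ) (ρ.op x * ρ.op y)

/-- The endomorphism `T` commutes with the action of `L`. -/
def Rep.Commutes {n : ℕ} (ρ : Rep ℓ L n) (T : EN ℓ n) : Prop := ∀ x, ρ.op x * T = T * ρ.op x

/-- The Galois element `σ` normalises the action of `L` on `M`, and induces `φ` on `L`. -/
def Normalises (M : IHGroup K ℓ) (ρ : Rep ℓ L M.n) (σ : GK K) (φ : L → L) : Prop :=
  ∀ x, M.r σ * ρ.op x = ρ.op (φ x) * M.r σ

/-- The element `μ` of `L` acts on `M` with the eigenvalues `hs - κ`: up to the scalar `κ` it is the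
Hodge-Tate operator. -/
def IsHodge (M : IHGroup K ℓ) (ρ : Rep ℓ L M.n) (μ : L) (κ : ℚ) : Prop :=
  (ρ.op μ).charpoly.roots =
    Finset.univ.val.map (fun j => ((M.hs j - κ : ℚ) : PadicAlgCl ℓ))

/-- The bilinear form `b` is multiplied by a scalar by `T`. -/
def Similitude {n : ℕ} (b : LinearMap.BilinForm (PadicAlgCl ℓ) (Fin n → PadicAlgCl ℓ))
    (T : EN ℓ n) : Prop :=
  ∃ m : PadicAlgCl ℓ, ∀ u v, b (T u) (T v) = m * b u v

/-- `S` and `T` are adjoint with respect to `b`. -/
def Adjoint {n : ℕ} (b : LinearMap.BilinForm (PadicAlgCl ℓ) (Fin n → PadicAlgCl ℓ))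
    (S T : EN ℓ n) : Prop :=
  ∀ u v, b (S u) v = b u (T v)

/-- The action `ρ` of a Lie algebra `L` on `A` is rigid: either all endomorphisms commuting with `L`
are scalars (for example: it is irreducible), or `A` has a nondegenerate bilinear form
which is invariant under `L` and preserved by the Galois group up to scalars, and all endomorphisms
commuting with `L` are selfadjoint (for example the adjoint representation, or the cohomology of a
K3 surface with real multiplication). -/
def Rigid (A : IHGroup K ℓ) (ρ : Rep ℓ L A.n) : Prop :=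
  (∀ T, ρ.Commutes T → ∃ c : PadicAlgCl ℓ, T = c • 1) ∨
    ∃ b : LinearMap.BilinForm (PadicAlgCl ℓ) (Fin A.n → PadicAlgCl ℓ), b.Nondegenerate ∧
      (∀ x, Adjoint b (ρ.op x) (-ρ.op x)) ∧ (∀ σ, Similitude b (A.r σ)) ∧
      ∀ T, ρ.Commutes T → Adjoint b T T

end rep

/-- The intersection cohomology groups `M i` are linked to the groups `A a` by the action of a
semisimple Lie algebra `L`.

* `L` is a finite dimensional Lie algebra over `ℚ̄_ℓ` with nondegenerate Killing form, which acts on
  the `M i` and the `A a` by `ρ` and `ρA`; the Galois group normalises this action.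
* An element `μ` of `L` acts on `M i` with the eigenvalues `hs - κ i`, with a rational number `κ i`,
  and similarly on the `A a`: the Hodge-Tate operator (Hodge cocharacter) is given by an element of
  `L`, up to scalars.
* The `A a` are rigid (for example irreducible) representations of `L`, and the sum of the trace
  forms of the `M i` is a rational linear combination of the trace forms of the `A a` (Dynkin
  index). -/
structure Link {β γ : Type} [Fintype β] [Fintype γ] (M : β → IHGroup K ℓ)
    (A : γ → IHGroup K ℓ) where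
  L : Type
  [ring : LieRing L]
  [alg : LieAlgebra (PadicAlgCl ℓ) L]
  [fin : FiniteDimensional (PadicAlgCl ℓ) L]
  [killing : LieAlgebra.IsKilling (PadicAlgCl ℓ) L]
  ρ : ∀ i, Rep ℓ L (M i).n
  ρA : ∀ a, Rep ℓ L (A a).n
  normalised : ∀ σ : GK K, ∃ φ : L ≃ₗ⁅PadicAlgCl ℓ⁆ L,
    (∀ i, Normalises (M i) (ρ i) σ φ) ∧ ∀ a, Normalises (A a) (ρA a) σ φ
  μ : L
  κ : β → ℚ
  κA : γ → ℚ
  hodge : ∀ i, IsHodge (M i) (ρ i) μ (κ i)
  hodgeA : ∀ a, IsHodge (A a) (ρA a) μ (κA a)
  rigid : ∀ a, Rigid (A a) (ρA a)
  c : γ → ℚ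
  index : ∀ x y, ∑ i, (ρ i).form x y = ∑ a, (c a : PadicAlgCl ℓ) * (ρA a).form x y

attribute [instance] Link.ring Link.alg Link.fin Link.killing

/-- The intersection cohomology group `M` is linked to `A` by the action of a simple Lie algebra `L`:
as in `Link`, but without a condition on the trace forms; the Hodge-Tate weights of `A` are not
constant. -/
structure SimpleLink (M A : IHGroup K ℓ) where
  L : Type
  [ring : LieRing L]
  [alg : LieAlgebra (PadicAlgCl ℓ) L]
  [fin : FiniteDimensional (PadicAlgCl ℓ) L]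
  [killing : LieAlgebra.IsKilling (PadicAlgCl ℓ) L]
  simple : LieAlgebra.IsSimple (PadicAlgCl ℓ) L
  ρ : Rep ℓ L M.n
  ρA : Rep ℓ L A.n
  normalised : ∀ σ : GK K, ∃ φ : L ≃ₗ⁅PadicAlgCl ℓ⁆ L,
    Normalises M ρ σ φ ∧ Normalises A ρA σ φ
  μ : L
  κ : ℚ
  κA : ℚ
  hodge : IsHodge M ρ μ κ
  hodgeA : IsHodge A ρA μ κA
  nonconst : ∃ j, A.hs j ≠ κA
  rigid : Rigid A ρA

attribute [instance] SimpleLink.ring SimpleLink.alg SimpleLink.fin SimpleLink.killing

/-- `B` is the direct sum of the `M i`: eigenvalues and Hodge-Tate weights are those of the `M i`. -/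
def IsSum {β : Type} [Fintype β] (M : β → IHGroup K ℓ) (B : IHGroup K ℓ) : Prop :=
  (∀ σ, B.eig σ = ∑ i, (M i).eig σ) ∧ B.wts = ∑ i, (M i).wts

/-- `B` is the tensor product of `M` and `N`: the eigenvalues are the products, and the Hodge-Tate
weights the sums. -/
def IsTensor (M N B : IHGroup K ℓ) : Prop :=
  (∀ σ, B.eig σ = (M.eig σ ×ˢ N.eig σ).map fun x => x.1 * x.2) ∧
    B.wts = (M.wts ×ˢ N.wts).map fun x => x.1 + x.2

/-- `B` is dual to `M`. -/
def IsDual (M B : IHGroup K ℓ) : Prop :=
  (∀ σ, B.eig σ = (M.eig σ).map fun x => x⁻¹) ∧ B.wts = M.wts.map fun x => -x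

/-- The place `v` has degree one: its norm is a prime number. -/
def DegreeOne (v : HeightOneSpectrum (𝓞 K)) : Prop := (Ideal.absNorm v.asIdeal).Prime

/-- The closure of the groups `A a` under Lie algebra links and tensor operations: the smallest class
of groups with the following properties.

* It contains the `A a`, all groups with a single Hodge-Tate weight, and all groups for which almost
  all places of degree one are ordinary (for example groups with complex multiplication, if `K`
  contains the Galois closure of the field of multiplications).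
* It is closed under direct sums and direct summands, tensor products and their nonzero factors, and
  duals.
* If the groups `B c` are in the class and the groups `M i` are linked to them then the `M i` are in
  the class, and conversely if the `M i` are rigid (for example irreducible) and the coefficients of
  the trace forms are positive. -/
inductive Closure {ι : Type} (A : ι → IHGroup K ℓ) : IHGroup K ℓ → Prop
  | base (a : ι) : Closure A (A a)
  | const (M : IHGroup K ℓ) (h : ∀ i j, M.hs i = M.hs j) : Closure A M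
  | split (M : IHGroup K ℓ) (h : {v | DegreeOne v ∧ ¬ M.Ordinary v}.Finite) : Closure A M
  | sum {β : Type} [Fintype β] (M : β → IHGroup K ℓ) (B : IHGroup K ℓ) (h : IsSum M B)
      (hM : ∀ i, Closure A (M i)) : Closure A B
  | summand {β : Type} [Fintype β] (M : β → IHGroup K ℓ) (B : IHGroup K ℓ) (h : IsSum M B)
      (hB : Closure A B) (i : β) : Closure A (M i)
  | tensor (M N B : IHGroup K ℓ) (h : IsTensor M N B) (hM : Closure A M) (hN : Closure A N) :
      Closure A B
  | left (M N B : IHGroup K ℓ) (h : IsTensor M N B) (hn : N.n ≠ 0) (hB : Closure A B) : Closure A M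
  | right (M N B : IHGroup K ℓ) (h : IsTensor M N B) (hn : M.n ≠ 0) (hB : Closure A B) : Closure A N
  | dual (M B : IHGroup K ℓ) (h : IsDual M B) (hM : Closure A M) : Closure A B
  | link {β γ : Type} [Fintype β] [Fintype γ] (M : β → IHGroup K ℓ) (B : γ → IHGroup K ℓ)
      (Λ : Link M B) (hB : ∀ c, Closure A (B c)) (i : β) : Closure A (M i)
  | colink {β γ : Type} [Fintype β] [Fintype γ] (M : β → IHGroup K ℓ) (B : γ → IHGroup K ℓ)
      (Λ : Link M B) (hrig : ∀ i, Rigid (M i) (Λ.ρ i)) (hc : ∀ c, 0 < Λ.c c)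
      (hM : ∀ i, Closure A (M i)) (c : γ) : Closure A (B c)
  | simple (M B : IHGroup K ℓ) (Λ : SimpleLink M B) (hB : Closure A B) : Closure A M

/-- The Hodge-Tate weights of `A` are `h` times `t`, `h` times `t + w`, and `t + w / 2` otherwise. -/
def HasType (A : IHGroup K ℓ) (w h t : ℕ) : Prop :=
  2 * h ≤ A.n ∧ ∀ j : Fin A.n, A.hs j =
    if (j : ℕ) < h then (t : ℚ) else if (j : ℕ) + h < A.n then (t + w / 2 : ℚ) else t + w

/-- The polynomial `P` is pure: its roots have the absolute value `q ^ (w / 2)`. -/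
def IsPure (P : ℤ[X]) (q w : ℕ) : Prop :=
  ∀ z ∈ (P.map (Int.castRingHom ℂ)).roots, ‖z‖ ^ 2 = (q : ℝ) ^ w

/-- `P` is the characteristic polynomial of the geometric Frobenius elements at `v`. -/
def IsFrobPoly (A : IHGroup K ℓ) (v : HeightOneSpectrum (𝓞 K)) (P : ℤ[X]) : Prop :=
  ∀ σ, IsFrob v σ → (A.r σ⁻¹).charpoly = P.map (Int.castRingHom (PadicAlgCl ℓ))

/-- The matrix entry `(i, j)` of `σ`. -/
noncomputable def IHGroup.entry (A : IHGroup K ℓ) (i j : Fin A.n) (σ : GK K) : PadicAlgCl ℓ :=
  A.r σ (Pi.single j 1) i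

/-- The coefficient of degree `k` of the characteristic polynomial of `σ`. -/
noncomputable def IHGroup.coeff (A : IHGroup K ℓ) (k : ℕ) (σ : GK K) : PadicAlgCl ℓ :=
  (A.r σ).charpoly.coeff k

/-- The function `f` is not constant near the identity. -/
def NonConstant (f : GK K → PadicAlgCl ℓ) : Prop :=
  ∀ O : Set (GK K), IsOpen O → 1 ∈ O → ∃ σ ∈ O, f σ ≠ f 1

/-- The group `A` is small: its Hodge-Tate weights are `h` times `t`, `h` times `t + w`, and
`t + w / 2` otherwise, where `w * h ≤ 2`: K3 type (`w = 2`, `h = 1`), elliptic curve type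
(`w = h = 1`), abelian surface type (`w = 1`, `h = 2`). `χ` is the `ℓ`-adic cyclotomic character. The
characteristic polynomials of the geometric Frobenius elements are integral, and pure of weight
`w + 2 t`. The trace of `∧^h A (t h + 1)`, which is up to sign the coefficient of degree `n - h`
of the characteristic polynomial times a power of `χ`, is not constant near the identity: this
follows from Sen's theorem, as the Hodge-Tate weights of this twist are not all zero. -/
structure Small (χ : GK K → PadicAlgCl ℓ) (A : IHGroup K ℓ) where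
  frobχ : ∀ v, v ∉ A.bad → ∀ σ, IsFrob v σ → χ σ = (Ideal.absNorm v.asIdeal : PadicAlgCl ℓ)
  w : ℕ
  h : ℕ
  t : ℕ
  small : w * h ≤ 2
  type : HasType A w h t
  cont : ∀ i j, Continuous (A.entry i j)
  poly : HeightOneSpectrum (𝓞 K) → ℤ[X]
  frob : ∀ v, v ∉ A.bad → IsFrobPoly A v (poly v)
  weil : ∀ v, v ∉ A.bad → IsPure (poly v) (Ideal.absNorm v.asIdeal) (w + 2 * t)
  nonconst : h ≠ 0 → NonConstant fun σ => A.coeff (A.n - h) σ * χ σ ^ (t * h + 1)

/-- The place `v` of `K` lies above the place `v₀` of the subfield `K₀`. -/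
def Over {K₀ : Type} [Field K₀] [NumberField K₀] [Algebra K₀ K] (v : HeightOneSpectrum (𝓞 K))
    (v₀ : HeightOneSpectrum (𝓞 K₀)) : Prop :=
  v.asIdeal.comap (algebraMap (𝓞 K₀) (𝓞 K)) = v₀.asIdeal

/-- Every Frobenius element at the place `v₀` of `K₀` acts on `M₀` with the same characteristic
polynomial as a Frobenius element at `v` on `M`. -/
def SameFrob {K₀ : Type} [Field K₀] [NumberField K₀] (M₀ : IHGroup K₀ ℓ) (M : IHGroup K ℓ)
    (v₀ : HeightOneSpectrum (𝓞 K₀)) (v : HeightOneSpectrum (𝓞 K)) : Prop :=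
  ∀ σ₀, IsFrob v₀ σ₀ → ∃ σ, IsFrob v σ ∧ (M₀.r σ₀⁻¹).charpoly = (M.r σ⁻¹).charpoly

/-- `M` is the base change to `K` of the intersection cohomology group `M₀` over the subfield `K₀`:
the Hodge-Tate weights are the same, and so are the characteristic polynomials of Frobenius for
almost all places of `K` of degree one. -/
structure IsBaseChange {K₀ : Type} [Field K₀] [NumberField K₀] [Algebra K₀ K]
    (M₀ : IHGroup K₀ ℓ) (M : IHGroup K ℓ) : Prop where
  weights : M₀.wts = M.wts
  frob : {v : HeightOneSpectrum (𝓞 K) | DegreeOne v ∧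
    ¬ ∀ v₀ : HeightOneSpectrum (𝓞 K₀), Over v v₀ → SameFrob M₀ M v₀ v}.Finite

/-- The matrix entries of the duals of the groups `A a`, and the cyclotomic character. -/
def coeffs {ι : Type} (χ : GK K → PadicAlgCl ℓ) (A : ι → IHGroup K ℓ) :
    Set (GK K → PadicAlgCl ℓ) :=
  {F | (∃ a i j, F = fun σ => (A a).entry i j σ⁻¹) ∨ F = χ}

/-- The Zariski closure of the image of `U` in the product of the `GL (A a)` and the multiplicative
group is connected: a polynomial in the matrix coefficients which is zero on a coset in `U` of an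
open subgroup is zero on `U`. -/
def ConnectedOver {ι : Type} (χ : GK K → PadicAlgCl ℓ) (A : ι → IHGroup K ℓ)
    (U : OpenNormalSubgroup (GK K)) : Prop :=
  ∀ F ∈ Algebra.adjoin (PadicAlgCl ℓ) (coeffs χ A), ∀ γ ∈ U, ∀ V : Subgroup (GK K),
    IsOpen (V : Set (GK K)) → (∀ x ∈ V, F (γ * x) = 0) → ∀ u ∈ U, F u = 0

/-- The monodromy of every finite subfamily of the `A a` is connected over an extension of degree at
most `m`. -/
def ConnectedDegree {ι : Type} (χ : GK K → PadicAlgCl ℓ) (A : ι → IHGroup K ℓ) (m : ℕ) : Prop :=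
  ∀ t : Finset ι, ∃ U : OpenNormalSubgroup (GK K),
    ConnectedOver χ (fun a : t => A a) U ∧ Nat.card (GK K ⧸ U.toSubgroup) ≤ m

end

end Pool.Agent.V7H61.LieOrd
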