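import Pool.Agent.V7H61.LieOrd.Ord

/-!
# Lie algebra detection of ordinarity: simple Lie algebras
-/

set_option autoImplicit false
set_option linter.all false

namespace Pool.Agent.V7H61.LieOrd

open Module Polynomial NumberField IsDedekindDomain
open Pool.Agent.W401.Cheb Pool.Agent.N184.HK

section

variable {C L : Type} [Field C] [IsAlgClosed C] [CharZero C] [LieRing L] [LieAlgebra C L]
  [FiniteDimensional C L] [LieAlgebra.IsKilling C L]

/-- Invariant forms on a simple Lie algebra are multiples of the Killing form. -/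
lemma form_eq (hs : LieAlgebra.IsSimple C L) (B : L →ₗ[C] L →ₗ[C] C)
    (hB : ∀ x y z, B ⁅x, y⁆ z = B x ⁅y, z⁆) :
    ∃ t : C, ∀ x y, B x y = t * killingForm C L x y := by
  have hnd := LieAlgebra.IsKilling.killingForm_nondegenerate C L
  have hcomm : ∀ x y : L, killingForm C L x y = killingForm C L y x := fun x y =>
    LieModule.traceForm_comm C L L x y
  have hinv : ∀ x y z : L, killingForm C L ⁅x, y⁆ z = killingForm C L x ⁅y, z⁆ := fun x y z =>
    LieModule.traceForm_apply_lie_apply C L L x y z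
  rcases subsingleton_or_nontrivial L with hsub | hnt
  · exact ⟨0, fun x y => by rw [Subsingleton.elim x 0]; simp⟩
  -- the operator `φ` with `B x y = κ (φ x) y`
  let e := LinearMap.BilinForm.toDual (killingForm C L) hnd
  let φ : Module.End C L := e.symm.toLinearMap ∘ₗ B
  have hφ : ∀ x y, killingForm C L (φ x) y = B x y := by
    intro x y
    have h1 := LinearMap.BilinForm.apply_toDual_symm_apply (hB := hnd) (B x) y
    exact h1
  obtain ⟨t, ht⟩ : ∃ t : C, φ.HasEigenvalue t := Module.End.exists_eigenvalue φ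
  obtain ⟨x0, hx0⟩ := ht.exists_hasEigenvector
  have hmem : ∀ x, (∀ y, B x y = t * killingForm C L x y) ↔ φ x = t • x := by
    intro x
    constructor
    · intro h
      have h1 : ∀ y, killingForm C L (φ x - t • x) y = 0 := by
        intro y
        rw [map_sub, LinearMap.sub_apply, hφ, h, map_smul, LinearMap.smul_apply, smul_eq_mul,
          sub_self]
      exact sub_eq_zero.1 (hnd.1 _ h1)
    · intro h y
      rw [← hφ, h, map_smul, LinearMap.smul_apply, smul_eq_mul]
  let I : LieIdeal C L :=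
    { carrier := {x | ∀ y, B x y = t * killingForm C L x y}
      zero_mem' := fun y => by simp
      add_mem' := fun {a b} ha hb y => by
        rw [map_add, map_add, LinearMap.add_apply, LinearMap.add_apply, ha, hb, mul_add]
      smul_mem' := fun c {a} ha y => by
        rw [map_smul, map_smul, LinearMap.smul_apply, LinearMap.smul_apply, ha, smul_eq_mul,
          smul_eq_mul]
        ring
      lie_mem := fun {x m} hm y => by
        have h1 : ⁅x, m⁆ = -⁅m, x⁆ := (lie_skew x m).symm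
        rw [h1, map_neg, map_neg, LinearMap.neg_apply, LinearMap.neg_apply, hB, hinv, hm]
        ring }
  have hI : I = ⊤ := by
    rcases hs.eq_bot_or_eq_top I with h | h
    · exfalso
      have h1 : x0 ∈ I := (hmem x0).2 hx0.apply_eq_smul
      rw [h, LieSubmodule.mem_bot] at h1
      exact hx0.2 h1
    · exact h
  refine ⟨t, fun x y => ?_⟩
  have h1 : x ∈ I := by rw [hI]; trivial
  exact h1 y

variable {V : Type} [AddCommGroup V] [Module C V] [FiniteDimensional C V]

/-- The trace form. -/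
noncomputable def tform (ρ : L →ₗ[C] Module.End C V) : L →ₗ[C] L →ₗ[C] C :=
  ((LinearMap.mul C (Module.End C V)).compl₁₂ ρ ρ).compr₂ (LinearMap.trace C V)

omit [IsAlgClosed C] [CharZero C] [FiniteDimensional C L] [LieAlgebra.IsKilling C L]
  [FiniteDimensional C V] in
lemma tform_apply (ρ : L →ₗ[C] Module.End C V) (x y : L) :
    tform ρ x y = LinearMap.trace C V (ρ x * ρ y) := rfl

omit [IsAlgClosed C] [CharZero C] [FiniteDimensional C L] [LieAlgebra.IsKilling C L]
  [FiniteDimensional C V] in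
lemma tform_inv (ρ : L →ₗ[C] Module.End C V) (hbr : ∀ x y, ρ ⁅x, y⁆ = ρ x * ρ y - ρ y * ρ x)
    (x y z : L) : tform ρ ⁅x, y⁆ z = tform ρ x ⁅y, z⁆ := by
  rw [tform_apply, tform_apply, hbr, hbr, sub_mul, mul_sub, map_sub, map_sub]
  have h1 : LinearMap.trace C V (ρ y * ρ x * ρ z) = LinearMap.trace C V (ρ x * (ρ z * ρ y)) := by
    rw [mul_assoc, LinearMap.trace_mul_comm, mul_assoc]
  rw [h1, mul_assoc]

end

section

variable {K : Type} [Field K] [NumberField K] {ℓ : ℕ} [Fact ℓ.Prime]

/-- A simple link is a link. -/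
noncomputable def SimpleLink.toLink {M A : IHGroup K ℓ} (Λ : SimpleLink M A) :
    Link (fun _ : Unit => M) (fun _ : Unit => A) where
  L := Λ.L
  ρ _ := Λ.ρ
  ρA _ := Λ.ρA
  normalised σ := by
    obtain ⟨φ, h1, h2⟩ := Λ.normalised σ
    exact ⟨φ, fun _ => h1, fun _ => h2⟩
  μ := Λ.μ
  κ _ := Λ.κ
  κA _ := Λ.κA
  hodge _ := Λ.hodge
  hodgeA _ := Λ.hodgeA
  rigid _ := Λ.rigid
  c _ := (∑ j, (M.hs j - Λ.κ) * (M.hs j - Λ.κ)) / ∑ j, (A.hs j - Λ.κA) * (A.hs j - Λ.κA)
  index x y := by
    have hM := form_eq Λ.simple (tform Λ.ρ.lin) (tform_inv Λ.ρ.lin Λ.ρ.bracket)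
    have hA := form_eq Λ.simple (tform Λ.ρA.lin) (tform_inv Λ.ρA.lin Λ.ρA.bracket)
    obtain ⟨t, ht'⟩ := hM
    obtain ⟨u, hu'⟩ := hA
    have ht : ∀ x y, Λ.ρ.form x y = t * killingForm (PadicAlgCl ℓ) Λ.L x y := ht'
    have hu : ∀ x y, Λ.ρA.form x y = u * killingForm (PadicAlgCl ℓ) Λ.L x y := hu'
    have h1 := ht Λ.μ Λ.μ
    have h2 := hu Λ.μ Λ.μ
    rw [hodge_sq Λ.hodge] at h1
    rw [hodge_sq Λ.hodgeA] at h2
    have hpos : 0 < ∑ j, (A.hs j - Λ.κA) * (A.hs j - Λ.κA) := by
      obtain ⟨j, hj⟩ := Λ.nonconst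
      refine Finset.sum_pos' (fun j _ => mul_self_nonneg _) ⟨j, Finset.mem_univ j, ?_⟩
      exact mul_self_pos.2 (sub_ne_zero.2 hj)
    set D := ∑ j, (M.hs j - Λ.κ) * (M.hs j - Λ.κ) with hD
    set D' := ∑ j, (A.hs j - Λ.κA) * (A.hs j - Λ.κA) with hD'
    have hD0 : (D' : PadicAlgCl ℓ) ≠ 0 := by exact_mod_cast hpos.ne'
    have h3 := ht x y
    have h4 := hu x y
    simp only [Finset.univ_unique, Finset.sum_singleton]
    rw [h3, h4, Rat.cast_div, h1, h2]
    rw [h2] at hD0
    have hu0 := left_ne_zero_of_mul hD0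
    have hk0 := right_ne_zero_of_mul hD0
    field_simp

/-- Detection for simple links. -/
theorem ordinary_of_simple {M A : IHGroup K ℓ} (Λ : SimpleLink M A)
    {v : HeightOneSpectrum (𝓞 K)} (hv : v ∉ M.bad) (h : A.Ordinary v) : M.Ordinary v :=
  ordinary_of_link Λ.toLink (fun _ => hv) (fun _ => h) ()

end

end Pool.Agent.V7H61.LieOrd
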