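import Pool.Agent.V7H61.LieOrd.Piece
import Pool.Agent.V7H61.LieOrd.Simple
import Pool.Agent.V7H61.LieOrd.Alg2
import Pool.Agent.W850.Ord.LowDens

/-!
# Lie algebra detection of ordinarity: density
-/

set_option autoImplicit false
set_option linter.all false

namespace Pool.Agent.V7H61.LieOrd

open Module Polynomial NumberField IsDedekindDomain Filter Topology
open Pool.Agent.W401.Cheb Pool.Agent.N184.HK Pool.Agent.W528.Ord Pool.Agent.R915.Ord
open Pool.Agent.W850.Ord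

section

variable {K : Type} [Field K] [NumberField K] {ℓ : ℕ} [Fact ℓ.Prime] {ι : Type} [Finite ι]
  {χ : GK K →* PadicAlgCl ℓ} {A : ι → IHGroup K ℓ}

lemma coeffs_fg : (Submodule.span (PadicAlgCl ℓ) (coeffs χ A)).FG := by
  classical
  refine Submodule.fg_span ?_
  have h1 : coeffs χ A ⊆
      (⋃ a, ⋃ i, ⋃ j, {fun σ => (A a).entry i j σ⁻¹}) ∪ {fun σ => χ σ} := by
    rintro F (⟨a, i, j, rfl⟩ | rfl)
    · exact Or.inl (Set.mem_iUnion.2 ⟨a, Set.mem_iUnion.2 ⟨i, Set.mem_iUnion.2 ⟨j, rfl⟩⟩⟩)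
    · exact Or.inr rfl
  refine Set.Finite.subset (Set.Finite.union ?_ (Set.finite_singleton _)) h1
  exact Set.finite_iUnion fun a => Set.finite_iUnion fun i => Set.finite_iUnion fun j =>
    Set.finite_singleton _

omit [Finite ι] in
lemma entry_mul (a : ι) (i j : Fin (A a).n) (σ τ : GK K) :
    (A a).entry i j (σ * τ) = ∑ k, (A a).entry i k σ * (A a).entry k j τ := by
  have h1 : ∀ (T : EN ℓ (A a).n) (x : Fin (A a).n → PadicAlgCl ℓ),
      T x = ∑ k, x k • T (Pi.single k 1) := by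
    intro T x
    conv_lhs => rw [← Finset.univ_sum_single x]
    rw [map_sum]
    refine Finset.sum_congr rfl fun k _ => ?_
    rw [← map_smul]
    congr 1
    ext l
    by_cases hl : l = k
    · subst hl; simp
    · simp [Pi.single_eq_of_ne hl]
  unfold IHGroup.entry
  rw [map_mul, Module.End.mul_apply, h1 ((A a).r σ), Finset.sum_apply]
  refine Finset.sum_congr rfl fun k _ => ?_
  rw [Pi.smul_apply, smul_eq_mul, mul_comm]

omit [Finite ι] in
lemma coeffs_trans (g : GK K) (F : GK K → PadicAlgCl ℓ) (hF : F ∈ coeffs χ A) :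
    (fun x => F (g * x)) ∈ Algebra.adjoin (PadicAlgCl ℓ) (coeffs χ A) := by
  rcases hF with ⟨a, i, j, rfl⟩ | rfl
  · have h1 : (fun x => (A a).entry i j (g * x)⁻¹) =
        ∑ k, (A a).entry k j g⁻¹ • fun x => (A a).entry i k x⁻¹ := by
      funext x
      rw [mul_inv_rev, entry_mul, Finset.sum_apply]
      refine Finset.sum_congr rfl fun k _ => ?_
      rw [Pi.smul_apply, smul_eq_mul, mul_comm]
    change (fun x => (A a).entry i j (g * x)⁻¹) ∈
      Algebra.adjoin (PadicAlgCl ℓ) (coeffs (⇑χ) A)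
    rw [h1]
    refine sum_mem fun k _ => ?_
    have h2 : (fun x => (A a).entry i k x⁻¹) ∈ coeffs (⇑χ) A := Or.inl ⟨a, i, k, rfl⟩
    exact Subalgebra.smul_mem _ (Algebra.subset_adjoin h2) _
  · have h1 : (fun x => χ (g * x)) = χ g • (fun x => χ x) := by
      funext x
      rw [map_mul]; rfl
    rw [h1]
    have h2 : (fun x => χ x) ∈ coeffs χ A := Or.inr rfl
    exact Subalgebra.smul_mem _ (Algebra.subset_adjoin h2) _

omit [Finite ι] in
lemma coeffs_cont (hχ : Continuous χ) (s : ∀ a, Small χ (A a)) (F : GK K → PadicAlgCl ℓ)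
    (hF : F ∈ coeffs χ A) : Continuous F := by
  rcases hF with ⟨a, i, j, rfl⟩ | rfl
  · exact ((s a).cont i j).comp continuous_inv
  · exact hχ

/-- The function whose zeros contain the Frobenius elements. -/
noncomputable def Fk (s : ∀ a, Small χ (A a)) (a : ι) (k : ℤ) (σ : GK K) : PadicAlgCl ℓ :=
  ((A a).r σ⁻¹).charpoly.coeff ((A a).n - (s a).h) -
    (k : PadicAlgCl ℓ) * χ σ ^ ((s a).t * (s a).h + 1)

omit [Finite ι] in
lemma Fk_mem (s : ∀ a, Small χ (A a)) (a : ι) (k : ℤ) :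
    Fk s a k ∈ Algebra.adjoin (PadicAlgCl ℓ) (coeffs χ A) := by
  have h1 : (fun σ => ((A a).r σ⁻¹).charpoly.coeff ((A a).n - (s a).h)) ∈
      Algebra.adjoin (PadicAlgCl ℓ) (coeffs χ A) := by
    have h2 := coeff_mem (Algebra.adjoin (PadicAlgCl ℓ) (coeffs χ A))
      (fun σ => LinearMap.toMatrix' ((A a).r σ⁻¹)) (fun i j => by
        refine Algebra.subset_adjoin (Or.inl ⟨a, i, j, ?_⟩)
        funext σ
        rw [LinearMap.toMatrix'_apply]
        unfold IHGroup.entry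
        congr 2) ((A a).n - (s a).h)
    have h3 : (fun σ => ((A a).r σ⁻¹).charpoly.coeff ((A a).n - (s a).h)) = fun g =>
        (LinearMap.toMatrix' ((A a).r g⁻¹)).charpoly.coeff ((A a).n - (s a).h) := by
      funext σ
      rw [← LinearMap.toMatrix_eq_toMatrix', LinearMap.charpoly_toMatrix]
    rw [h3]
    exact h2
  have h2 : Fk s a k = (fun σ => ((A a).r σ⁻¹).charpoly.coeff ((A a).n - (s a).h)) -
      (k : PadicAlgCl ℓ) • (fun σ => χ σ) ^ ((s a).t * (s a).h + 1) := by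
    funext σ
    rfl
  have h3 : (fun x => χ x) ∈ coeffs χ A := Or.inr rfl
  rw [h2]
  exact Subalgebra.sub_mem _ h1 (Subalgebra.smul_mem _
    (Subalgebra.pow_mem _ (Algebra.subset_adjoin h3) _) _)

omit [Finite ι] in
lemma Fk_conj (s : ∀ a, Small χ (A a)) (a : ι) (k : ℤ) (σ τ : GK K) :
    Fk s a k (τ * σ * τ⁻¹) = Fk s a k σ := by
  have h1 : χ (τ * σ * τ⁻¹) = χ σ := by
    rw [map_mul, map_mul, mul_right_comm, ← map_mul, mul_inv_cancel, map_one, one_mul]
  have h2 : ((A a).r (τ * σ * τ⁻¹)⁻¹).charpoly = ((A a).r σ⁻¹).charpoly := by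
    have h3 : (A a).r (τ * σ * τ⁻¹)⁻¹ = ((A a).eq τ).conj ((A a).r σ⁻¹) := by
      refine LinearMap.ext fun x => ?_
      rw [LinearEquiv.conj_apply]
      change ((A a).r (τ * σ * τ⁻¹)⁻¹) x = (A a).r τ ((A a).r σ⁻¹ ((A a).r τ⁻¹ x))
      have e : (τ * σ * τ⁻¹)⁻¹ = τ * σ⁻¹ * τ⁻¹ := by group
      rw [e, map_mul, map_mul]
      rfl
    rw [h3, LinearEquiv.charpoly_conj]
  rw [Fk, Fk, h1, h2]

omit [Finite ι] in
lemma Fk_ne (s : ∀ a, Small χ (A a)) {a : ι} (h0 : (s a).h ≠ 0) (k : ℤ)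
    (U : OpenNormalSubgroup (GK K)) : ∃ u ∈ U, Fk s a k u ≠ 0 := by
  by_contra hcon
  push Not at hcon
  have h1 := hcon 1 (one_mem _)
  rw [Fk, inv_one, map_one χ, one_pow, mul_one, sub_eq_zero] at h1
  obtain ⟨σ, hσ, hne⟩ := (s a).nonconst h0 (U.toSubgroup : Set (GK K)) U.isOpen' (one_mem _)
  have h2 := hcon σ⁻¹ (inv_mem hσ)
  rw [Fk, inv_inv, sub_eq_zero, ← h1] at h2
  apply hne
  change ((A a).r σ).charpoly.coeff ((A a).n - (s a).h) * χ σ ^ ((s a).t * (s a).h + 1) =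
    ((A a).r 1).charpoly.coeff ((A a).n - (s a).h) * χ 1 ^ ((s a).t * (s a).h + 1)
  rw [h2, mul_assoc, ← mul_pow, ← map_mul, inv_mul_cancel, map_one χ, one_pow, mul_one]

/-- there is an open normal subgroup with connected monodromy -/
theorem exists_connected (χ : GK K →* PadicAlgCl ℓ) (A : ι → IHGroup K ℓ) :
    ∃ U : OpenNormalSubgroup (GK K), ConnectedOver χ A U := by
  haveI := adjoin_noeth (coeffs χ A) coeffs_fg
  exact exists_conn (Algebra.adjoin (PadicAlgCl ℓ) (coeffs χ A))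
    (adjoin_trans (coeffs χ A) coeffs_trans)

/-- **Density zero.** -/
theorem exceptional_zero (hχ : Continuous χ) (s : ∀ a, Small χ (A a))
    (U : OpenNormalSubgroup (GK K)) (hU : ConnectedOver χ A U) :
    Tendsto (dens fun v : HeightOneSpectrum (𝓞 K) => (∃ σ ∈ U, IsFrob v σ) ∧
      ¬ ∀ a, (A a).Ordinary v) atTop (𝓝 0) := by
  classical
  haveI := Fintype.ofFinite ι
  let B : Finset (ι × ℤ) := (Finset.univ.filter fun a => (s a).h ≠ 0).biUnion fun a =>
    (Finset.Icc (-((A a).n.choose (s a).h : ℤ)) ((A a).n.choose (s a).h)).image fun k => (a, k)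
  have hB : ∀ a k, (a, k) ∈ B ↔ (s a).h ≠ 0 ∧ |k| ≤ (A a).n.choose (s a).h := by
    intro a k
    simp only [B, Finset.mem_biUnion, Finset.mem_filter, Finset.mem_image, Finset.mem_Icc,
      Prod.mk.injEq, abs_le, Finset.mem_univ, true_and]
    constructor
    · rintro ⟨a', h2, k', h3, rfl, rfl⟩
      exact ⟨h2, h3⟩
    · rintro ⟨h2, h3⟩
      exact ⟨a, h2, k, h3, rfl, rfl⟩
  have h1 := dens_biUnion B (fun b (v : HeightOneSpectrum (𝓞 K)) =>
    ∃ σ ∈ U, Fk s b.1 b.2 σ = 0 ∧ IsFrob v σ) (by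
      rintro ⟨a, k⟩ hb
      obtain ⟨h0, -⟩ := (hB a k).1 hb
      exact dens_zero (coeffs χ A) coeffs_fg coeffs_trans (coeffs_cont hχ s) U hU (Fk s a k)
        (Fk_mem s a k) (Fk_conj s a k) (Fk_ne s h0 k U))
  have h2 := dens_not_prime (K := K)
  have h3 := dens_finite (fun v => v ∈ ⋃ a, (A a).bad) (Set.finite_iUnion fun a => (A a).finite)
  have h4 := h1.add (h2.add h3)
  rw [add_zero, add_zero] at h4
  refine squeeze_zero (fun N => dens_nonneg _ _) (fun N => ?_) h4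
  refine le_trans (dens_mono (Q := fun v => _ ∨ (_ ∨ _)) ?_ N)
    (le_trans (dens_or _ _ N) (add_le_add_right (dens_or _ _ N) _))
  rintro v ⟨⟨σ, hσU, hσ⟩, hno⟩
  by_cases hp : (Ideal.absNorm v.asIdeal).Prime
  · by_cases hb : v ∈ ⋃ a, (A a).bad
    · exact Or.inr (Or.inr hb)
    · left
      push Not at hno
      obtain ⟨a, hna⟩ := hno
      rw [Set.mem_iUnion, not_exists] at hb
      obtain ⟨h0, k, hk, hF⟩ := not_ordinary (s a) (hb a) hp hna
      refine ⟨(a, k), (hB a k).2 ⟨h0, hk⟩, σ, hσU, ?_, hσ⟩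
      change _ - _ = _
      rw [hF σ hσ, sub_self]
  · exact Or.inr (Or.inl hp)

/-- Chebotarev for the subgroup `U`. -/
lemma dens_U (U : OpenNormalSubgroup (GK K)) :
    Tendsto (dens fun v : HeightOneSpectrum (𝓞 K) => ∃ σ ∈ U, IsFrob v σ) atTop
      (𝓝 (1 / (Nat.card (GK K ⧸ U.toSubgroup) : ℝ))) := by
  have hUo : IsOpen (U.toSubgroup : Set (GK K)) := U.isOpen'
  haveI := U.isNormal'
  have h := chebK K U.toSubgroup hUo (U.toSubgroup : Set (GK K))
    (fun σ hσ τ => U.isNormal'.conj_mem σ hσ τ) (fun σ hσ u hu => mul_mem hσ hu)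
  have h1 : ((QuotientGroup.mk : GK K → GK K ⧸ U.toSubgroup) '' (U.toSubgroup : Set (GK K))) =
      {QuotientGroup.mk 1} := by
    ext q
    constructor
    · rintro ⟨x, hx, rfl⟩
      rw [Set.mem_singleton_iff, eq_comm, QuotientGroup.eq]
      simpa using hx
    · rintro rfl
      exact ⟨1, one_mem _, rfl⟩
  rw [h1, Set.ncard_singleton, Nat.cast_one] at h
  exact h

/-- **Lower density.** -/
theorem lower_bound (hχ : Continuous χ) (s : ∀ a, Small χ (A a))
    (U : OpenNormalSubgroup (GK K)) (hU : ConnectedOver χ A U) :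
    1 / (Nat.card (GK K ⧸ U.toSubgroup) : ℝ) ≤ lowerDensity fun v =>
      (Ideal.absNorm v.asIdeal).Prime ∧ ∀ a, (A a).Ordinary v := by
  have h1 := ratio_tendsto _ _ (dens_U U)
  have h20 : Tendsto (dens fun v : HeightOneSpectrum (𝓞 K) => (∃ σ ∈ U, IsFrob v σ) ∧
      ¬ ((Ideal.absNorm v.asIdeal).Prime ∧ ∀ a, (A a).Ordinary v)) atTop (𝓝 0) := by
    have h4 := (exceptional_zero hχ s U hU).add (dens_not_prime (K := K))
    rw [add_zero] at h4
    refine squeeze_zero (fun N => dens_nonneg _ _) (fun N => ?_) h4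
    refine le_trans (dens_mono (Q := fun v => _ ∨ _) ?_ N) (dens_or _ _ N)
    rintro v ⟨hσ, hno⟩
    by_cases hp : (Ideal.absNorm v.asIdeal).Prime
    · exact Or.inl ⟨hσ, fun h => hno ⟨hp, h⟩⟩
    · exact Or.inr hp
  have h2 := ratio_tendsto _ _ h20
  have h3 := h1.sub h2
  rw [sub_zero] at h3
  have hle : ∀ N, ratio (fun v : HeightOneSpectrum (𝓞 K) => ∃ σ ∈ U, IsFrob v σ) N -
      ratio (fun v : HeightOneSpectrum (𝓞 K) => (∃ σ ∈ U, IsFrob v σ) ∧
        ¬ ((Ideal.absNorm v.asIdeal).Prime ∧ ∀ a, (A a).Ordinary v)) N ≤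
        ratio (fun v => (Ideal.absNorm v.asIdeal).Prime ∧ ∀ a, (A a).Ordinary v) N := by
    intro N
    rw [sub_le_iff_le_add]
    unfold ratio
    rw [← add_div]
    apply div_le_div_of_nonneg_right _ (Nat.cast_nonneg _)
    have hsub : {v : HeightOneSpectrum (𝓞 K) | Ideal.absNorm v.asIdeal ≤ N ∧
        ∃ σ ∈ U, IsFrob v σ} ⊆
        {v : HeightOneSpectrum (𝓞 K) | Ideal.absNorm v.asIdeal ≤ N ∧
          ((Ideal.absNorm v.asIdeal).Prime ∧ ∀ a, (A a).Ordinary v)} ∪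
        {v : HeightOneSpectrum (𝓞 K) | Ideal.absNorm v.asIdeal ≤ N ∧
          (∃ σ ∈ U, IsFrob v σ) ∧
            ¬ ((Ideal.absNorm v.asIdeal).Prime ∧ ∀ a, (A a).Ordinary v)} := by
      rintro v ⟨hv, hP⟩
      by_cases hT : (Ideal.absNorm v.asIdeal).Prime ∧ ∀ a, (A a).Ordinary v
      · exact Or.inl ⟨hv, hT⟩
      · exact Or.inr ⟨hv, hP, hT⟩
    have hf := Pool.Agent.W352.ChAbs.finite_le (K := K) N
    have h8 := (Set.ncard_le_ncard hsub ((hf.subset fun v hv => hv.1).union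
      (hf.subset fun v hv => hv.1))).trans (Set.ncard_union_le _ _)
    exact_mod_cast h8
  rw [← h3.liminf_eq]
  unfold lowerDensity
  refine liminf_le_liminf (Eventually.of_forall hle) ?_ (cobdd _)
  exact h3.isBoundedUnder_ge

/-- **Descent to subfields.** -/
theorem lower_under (hχ : Continuous χ) (s : ∀ a, Small χ (A a)) (K₀ : Type) [Field K₀]
    [NumberField K₀] [Algebra K₀ K] :
    0 < lowerDensity fun v₀ : HeightOneSpectrum (𝓞 K₀) => ∃ v : HeightOneSpectrum (𝓞 K),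
      v.asIdeal.comap (algebraMap (𝓞 K₀) (𝓞 K)) = v₀.asIdeal ∧
      (Ideal.absNorm v.asIdeal).Prime ∧ ∀ a, (A a).Ordinary v := by
  obtain ⟨U, hU⟩ := exists_connected χ A
  have hUo : IsOpen (U.toSubgroup : Set (GK K)) := U.isOpen'
  haveI hUfin : Finite (GK K ⧸ U.toSubgroup) := Subgroup.quotient_finite_of_isOpen _ hUo
  set δ := 1 / (Nat.card (GK K ⧸ U.toSubgroup) : ℝ) with hδ
  have hδ0 : 0 < δ := by
    rw [hδ]
    have : (0 : ℝ) < (Nat.card (GK K ⧸ U.toSubgroup) : ℝ) := by exact_mod_cast Nat.card_pos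
    positivity
  have h1 := dens_U U
  have h2 := exceptional_zero hχ s U hU
  have h3 := dens_not_prime (K := K)
  let P : HeightOneSpectrum (𝓞 K) → Prop := fun v =>
    (Ideal.absNorm v.asIdeal).Prime ∧ ∀ a, (A a).Ordinary v
  have hP : ∀ᶠ N : ℕ in atTop, δ / 2 ≤ dens P N := by
    filter_upwards [h1.eventually (lt_mem_nhds (show 3 * δ / 4 < δ by linarith)),
      h2.eventually (gt_mem_nhds (show (0 : ℝ) < δ / 8 by positivity)),
      h3.eventually (gt_mem_nhds (show (0 : ℝ) < δ / 8 by positivity))] with N e1 e2 e3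
    have hle : dens (fun v : HeightOneSpectrum (𝓞 K) => ∃ σ ∈ U, IsFrob v σ) N ≤
        dens P N + (dens (fun v : HeightOneSpectrum (𝓞 K) => (∃ σ ∈ U, IsFrob v σ) ∧
          ¬ ∀ a, (A a).Ordinary v) N +
        dens (fun v : HeightOneSpectrum (𝓞 K) => ¬ (Ideal.absNorm v.asIdeal).Prime) N) := by
      refine le_trans (dens_mono (Q := fun v => _ ∨ (_ ∨ _)) ?_ N)
        (le_trans (dens_or _ _ N) (add_le_add_right (dens_or _ _ N) _))
      intro v hv
      by_cases hp : (Ideal.absNorm v.asIdeal).Prime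
      · by_cases ho : ∀ a, (A a).Ordinary v
        · exact Or.inl ⟨hp, ho⟩
        · exact Or.inr (Or.inl ⟨hv, ho⟩)
      · exact Or.inr (Or.inr hp)
    linarith
  let P₀ : HeightOneSpectrum (𝓞 K₀) → Prop := fun v₀ => ∃ v : HeightOneSpectrum (𝓞 K),
      v.asIdeal.comap (algebraMap (𝓞 K₀) (𝓞 K)) = v₀.asIdeal ∧
      (Ideal.absNorm v.asIdeal).Prime ∧ ∀ a, (A a).Ordinary v
  have hPP : ∀ (v : HeightOneSpectrum (𝓞 K)) (v₀ : HeightOneSpectrum (𝓞 K₀)), P v →
      v.asIdeal.comap (algebraMap (𝓞 K₀) (𝓞 K)) = v₀.asIdeal → P₀ v₀ := by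
    intro v v₀ hv hvv
    exact ⟨v, hvv, hv.1, hv.2⟩
  have hd := dens_under P P₀ (fun v hv => hv.1) hPP
  have hm : (0 : ℝ) < (Module.finrank ℚ K : ℝ) := by exact_mod_cast Module.finrank_pos
  refine lowerDensity_pos P₀ (δ / 2 / (Module.finrank ℚ K : ℝ)) (by positivity) ?_
  filter_upwards [hP] with N hN
  rw [div_le_iff₀ hm, mul_comm]
  exact hN.trans (hd N)

end

end Pool.Agent.V7H61.LieOrd
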