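import Pool.Agent.V7H61.LieOrd.Alg
import Pool.Agent.V7H61.LieOrd.Defs
import Pool.Agent.N184.HK.Ord

/-!
# Lie algebra detection of ordinarity: comparison of the second moments
-/

set_option autoImplicit false
set_option linter.all false

namespace Pool.Agent.V7H61.LieOrd

open Module Polynomial NumberField IsDedekindDomain
open Pool.Agent.W401.Cheb Pool.Agent.N184.HK

section val

variable {C : Type} [Field C]

/-- The valuation of the nonzero elements. -/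
def vw (val : AddValuation C (WithTop ℚ)) (x : C) : ℚ := (val x).untopD 0

lemma coe_vw (val : AddValuation C (WithTop ℚ)) {x : C} (hx : x ≠ 0) :
    ((vw val x : ℚ) : WithTop ℚ) = val x := by
  have h : val x ≠ ⊤ := fun h => hx ((AddValuation.top_iff val).1 h)
  obtain ⟨r, hr⟩ := WithTop.ne_top_iff_exists.1 h
  rw [vw, ← hr]
  rfl

lemma vw_mul (val : AddValuation C (WithTop ℚ)) (x y : C) (hx : x ≠ 0) (hy : y ≠ 0) :
    vw val (x * y) = vw val x + vw val y := by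
  have h : ((vw val (x * y) : ℚ) : WithTop ℚ) = ((vw val x + vw val y : ℚ) : WithTop ℚ) := by
    rw [WithTop.coe_add, coe_vw val hx, coe_vw val hy, coe_vw val (mul_ne_zero hx hy), val.map_mul]
  exact_mod_cast h

variable {V : Type} [AddCommGroup V] [Module C V] [FiniteDimensional C V]

lemma IsNewton.slopes' {n : ℕ} {val : AddValuation C (WithTop ℚ)} {φ : Module.End C V}
    {s : Fin n → ℚ} (h : IsNewton val φ s) :
    φ.charpoly.roots.map (vw val) = Finset.univ.val.map s := by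
  have h := congrArg (Multiset.map (fun x : WithTop ℚ => x.untopD 0)) h.2
  rw [Multiset.map_map, Multiset.map_map] at h
  exact h

lemma sumf_cast {n : ℕ} (f : Fin n → ℚ) [CharZero C] :
    (Finset.univ.val.map (fun j => ((f j : ℚ) : C))).sum = ((∑ j, f j : ℚ) : C) := by
  rw [Rat.cast_sum]; rfl

lemma IsNewton.sum [CharZero C] {n : ℕ} {val : AddValuation C (WithTop ℚ)} {φ : Module.End C V}
    {s : Fin n → ℚ} (h : IsNewton val φ s) (g : ℚ → ℚ) :
    (φ.charpoly.roots.map (fun e => ((g (vw val e) : ℚ) : C))).sum = ((∑ j, g (s j) : ℚ) : C) := by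
  have h := congrArg (fun s => (s.map (fun x : ℚ => ((g x : ℚ) : C))).sum) h.slopes'
  simp only [Multiset.map_map] at h
  exact h.trans (sumf_cast _)

lemma IsNewton.card [IsAlgClosed C] {n : ℕ} {val : AddValuation C (WithTop ℚ)}
    {φ : Module.End C V} {s : Fin n → ℚ} (h : IsNewton val φ s) : Module.finrank C V = n := by
  have h := congrArg Multiset.card h.slopes'
  rw [Multiset.card_map, Multiset.card_map, Finset.card_val, Finset.card_univ, Fintype.card_fin,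
    ← (IsAlgClosed.splits _).natDegree_eq_card_roots, LinearMap.charpoly_natDegree] at h
  exact h

lemma mono_unique {n : ℕ} {s t : Fin n → ℚ} (hs : Monotone s) (ht : Monotone t)
    (h : Finset.univ.val.map s = Finset.univ.val.map t) : s = t := by
  rw [Fin.univ_val_map, Fin.univ_val_map, Multiset.coe_eq_coe] at h
  exact List.ofFn_injective (h.eq_of_sortedLE hs.sortedLE_ofFn ht.sortedLE_ofFn)

lemma IsNewton.unique {n : ℕ} {val : AddValuation C (WithTop ℚ)} {φ : Module.End C V}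
    {s t : Fin n → ℚ} (h : IsNewton val φ s) (h' : IsNewton val φ t) : s = t :=
  mono_unique h.1 h'.1 (h.slopes'.symm.trans h'.slopes')

lemma exists_newton [IsAlgClosed C] (val : AddValuation C (WithTop ℚ)) (φ : V ≃ₗ[C] V) {n : ℕ}
    (hn : Module.finrank C V = n) : ∃ s : Fin n → ℚ, IsNewton val (en φ) s := by
  set m := (en φ).charpoly.roots.map (vw val) with hm
  have hcard : (m.sort (· ≤ ·)).length = n := by
    rw [Multiset.length_sort, hm, Multiset.card_map,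
      ← (IsAlgClosed.splits _).natDegree_eq_card_roots, LinearMap.charpoly_natDegree, hn]
  subst hcard
  refine ⟨(m.sort (· ≤ ·)).get, ?_, ?_⟩
  · have h : (List.ofFn (m.sort (· ≤ ·)).get).SortedLE := by
      rw [List.ofFn_get]
      exact (Multiset.pairwise_sort m (· ≤ ·)).sortedLE
    exact h.monotone
  · have h1 : Finset.univ.val.map (m.sort (· ≤ ·)).get = m := by
      rw [Fin.univ_val_map, List.ofFn_get, Multiset.sort_eq]
    have h2 : (Finset.univ.val.map (fun j => (((m.sort (· ≤ ·)).get j : ℚ) : WithTop ℚ))) =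
        m.map (fun x : ℚ => (x : WithTop ℚ)) := by
      conv_rhs => rw [← h1]
      rw [Multiset.map_map]
      rfl
    rw [h2, hm, Multiset.map_map]
    refine Multiset.map_congr rfl fun e he => ?_
    exact (coe_vw val (root_ne (φ := φ) he)).symm

end val

section

variable {K : Type} [Field K] [NumberField K] {ℓ : ℕ} [Fact ℓ.Prime]

/-- The space. -/
abbrev IHGroup.V (M : IHGroup K ℓ) : Type := Fin M.n → PadicAlgCl ℓ

lemma IHGroup.dim (M : IHGroup K ℓ) : Module.finrank (PadicAlgCl ℓ) M.V = M.n :=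
  Module.finrank_fin_fun _

/-- A representation as a linear map. -/
noncomputable def Rep.lin {L : Type} [LieRing L] [LieAlgebra (PadicAlgCl ℓ) L] {n : ℕ}
    (ρ : Rep ℓ L n) : L →ₗ[PadicAlgCl ℓ] Module.End (PadicAlgCl ℓ) (Fin n → PadicAlgCl ℓ) where
  toFun := ρ.op
  map_add' := ρ.add
  map_smul' := ρ.smul

/-- The action of a Galois element as an equivalence. -/
noncomputable def IHGroup.eq (M : IHGroup K ℓ) (σ : GK K) : M.V ≃ₗ[PadicAlgCl ℓ] M.V :=
  LinearEquiv.ofLinear (M.r σ) (M.r σ⁻¹)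
    (by
      change M.r σ * M.r σ⁻¹ = 1
      rw [← map_mul, mul_inv_cancel, map_one])
    (by
      change M.r σ⁻¹ * M.r σ = 1
      rw [← map_mul, inv_mul_cancel, map_one])

lemma IHGroup.en_eq (M : IHGroup K ℓ) (σ : GK K) : en (M.eq σ) = M.r σ := rfl

/-- Equality of the second moments means equality of the polygons. -/
lemma eq_of_sq {M : IHGroup K ℓ} {v : HeightOneSpectrum (𝓞 K)} (hv : v ∉ M.bad) {σ : GK K}
    (hσ : IsFrob v σ) {val : AddValuation (PadicAlgCl ℓ) (WithTop ℚ)}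
    (hval : val (Ideal.absNorm v.asIdeal : PadicAlgCl ℓ) = 1) {s : Fin M.n → ℚ}
    (hs : IsNewton val (M.r σ⁻¹) s) :
    0 ≤ ∑ j, M.hs j ^ 2 - ∑ j, s j ^ 2 ∧
      (∑ j, M.hs j ^ 2 - ∑ j, s j ^ 2 ≤ 0 → s = M.hs) := by
  have h := M.above v hv σ hσ val hval s hs
  have h1 := t_maj M.n s M.hs hs.1 h.1 h.2
  exact ⟨sub_nonneg.2 h1.1, fun h2 => h1.2 (sub_nonpos.1 h2)⟩

section rep

variable {L : Type} [LieRing L] [LieAlgebra (PadicAlgCl ℓ) L] [FiniteDimensional (PadicAlgCl ℓ) L]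
  [LieAlgebra.IsKilling (PadicAlgCl ℓ) L] {M : IHGroup K ℓ}
  {ρ : Rep ℓ L M.n} {μ : L} {κ : ℚ}

lemma hodge_sum (hodge : IsHodge M ρ μ κ) :
    ∑ j, (M.hs j - κ) = 0 := by
  have h1 : LinearMap.trace (PadicAlgCl ℓ) M.V (ρ.lin μ * 1) = 0 :=
    tr_rho_zero ρ.lin ρ.bracket (fun x => Commute.one_right _) μ
  have hodge' : (ρ.lin μ).charpoly.roots =
      Finset.univ.val.map (fun j => ((M.hs j - κ : ℚ) : PadicAlgCl ℓ)) := hodge
  rw [mul_one, tr_roots, hodge', Multiset.map_map] at h1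
  have h2 := (sumf_cast (C := PadicAlgCl ℓ) (fun j => M.hs j - κ)).symm.trans h1
  exact_mod_cast h2

omit [FiniteDimensional (PadicAlgCl ℓ) L] [LieAlgebra.IsKilling (PadicAlgCl ℓ) L] in
lemma hodge_sq (hodge : IsHodge M ρ μ κ) :
    ρ.form μ μ = ((∑ j, (M.hs j - κ) * (M.hs j - κ) : ℚ) : PadicAlgCl ℓ) := by
  unfold IsHodge at hodge
  rw [Rep.form, tr_mul_self, hodge, Multiset.map_map, ← sumf_cast]
  congr 1
  refine Multiset.map_congr rfl fun j _ => ?_
  simp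

/-- One group with the action of `L`: the second moments of the slopes. -/
lemma one_group (hodge : IsHodge M ρ μ κ)
    {v : HeightOneSpectrum (𝓞 K)} (hv : v ∉ M.bad) {σ : GK K} (hσ : IsFrob v σ)
    {val : AddValuation (PadicAlgCl ℓ) (WithTop ℚ)}
    (hval : val (Ideal.absNorm v.asIdeal : PadicAlgCl ℓ) = 1) {s : Fin M.n → ℚ}
    (hs : IsNewton val (M.r σ⁻¹) s) (φL : L ≃ₗ⁅PadicAlgCl ℓ⁆ L)
    (hφL : Normalises M ρ σ⁻¹ φL) {ν : L}
    (hν : ∀ x, fop (en φL.toLinearEquiv) (fun e => (vw val e : PadicAlgCl ℓ)) x = ⁅ν, x⁆)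
    (hν2 : φL ν = ν) :
    ∃ r : ℚ, 0 ≤ r ∧ ((∑ j, (s j - κ) * (s j - κ) : ℚ) : PadicAlgCl ℓ) =
        ρ.form ν ν + r ∧
      ∑ j, M.hs j ^ 2 - ∑ j, s j ^ 2 =
        ∑ j, (M.hs j - κ) * (M.hs j - κ) - ∑ j, (s j - κ) * (s j - κ) ∧
      (Rigid M ρ → r = 0) := by
  have hends : ∑ j, s j = ∑ j, M.hs j := (M.above v hv σ hσ val hval s hs).2
  have hsum0 : ((en (M.eq σ⁻¹)).charpoly.roots.map
      (fun e => ((vw val e - κ : ℚ) : PadicAlgCl ℓ))).sum = 0 := by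
    have h1 := hs.sum (fun x => x - κ)
    rw [IHGroup.en_eq, h1, Finset.sum_sub_distrib, hends, ← Finset.sum_sub_distrib,
      hodge_sum hodge, Rat.cast_zero]
  obtain ⟨r, hr0, hr, hrirr⟩ := moment ρ.lin ρ.bracket (M.eq σ⁻¹) φL
    (fun x h => congrArg (fun f : Module.End _ _ => f h) (hφL x)) (vw val) (vw_mul val) hν hν2 κ
  refine ⟨r, hr0, ?_, ?_, fun hrig => hrirr ?_ hsum0⟩
  rotate_left 2
  · rcases hrig with h | ⟨b, h1, h2, h3, h4⟩
    · exact Or.inl h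
    · refine Or.inr ⟨b, h1, fun x u v => ?_, h3 σ⁻¹, h4⟩
      have h5 : b (ρ.op x u) v = b u ((-ρ.op x) v) := h2 x u v
      change b (ρ.op x u) v + b u (ρ.op x v) = 0
      rw [h5, LinearMap.neg_apply, map_neg, neg_add_cancel]
  · refine Eq.trans ?_ hr
    rw [IHGroup.en_eq]
    exact (hs.sum (fun x => (x - κ) * (x - κ))).symm
  · rw [sq_expand, sq_expand, hends]
    ring

end rep

/-- **The defects.** -/
theorem defect_eq {β γ : Type} [Fintype β] [Fintype γ] {M : β → IHGroup K ℓ}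
    {A : γ → IHGroup K ℓ} (Λ : Link M A) {v : HeightOneSpectrum (𝓞 K)}
    (hv : ∀ i, v ∉ (M i).bad) (hvA : ∀ a, v ∉ (A a).bad) {σ : GK K} (hσ : IsFrob v σ)
    {val : AddValuation (PadicAlgCl ℓ) (WithTop ℚ)}
    (hval : val (Ideal.absNorm v.asIdeal : PadicAlgCl ℓ) = 1) (s : ∀ i, Fin (M i).n → ℚ)
    (hs : ∀ i, IsNewton val ((M i).r σ⁻¹) (s i)) (t : ∀ a, Fin (A a).n → ℚ)
    (ht : ∀ a, IsNewton val ((A a).r σ⁻¹) (t a)) :
    ∃ r : ℚ, 0 ≤ r ∧ ∑ i, (∑ j, (M i).hs j ^ 2 - ∑ j, s i j ^ 2) =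
      ∑ a, Λ.c a * (∑ j, (A a).hs j ^ 2 - ∑ j, t a j ^ 2) - r ∧
      ((∀ i, Rigid (M i) (Λ.ρ i)) → r = 0) := by
  obtain ⟨φL, hφM, hφA⟩ := Λ.normalised σ⁻¹
  obtain ⟨ν, hν, hν2⟩ := exists_nu φL (vw val) (vw_mul val)
  choose r hr0 hr hd hirr using fun i => one_group (Λ.hodge i) (hv i) hσ hval (hs i)
    φL (hφM i) hν hν2
  choose r' hr0' hr' hd' hirr' using fun a => one_group (Λ.hodgeA a) (hvA a) hσ
    hval (ht a) φL (hφA a) hν hν2
  have hra : ∀ a, r' a = 0 := fun a => hirr' a (Λ.rigid a)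
  have hN : ∑ i, ∑ j, (s i j - Λ.κ i) * (s i j - Λ.κ i) =
      ∑ a, Λ.c a * (∑ j, (t a j - Λ.κA a) * (t a j - Λ.κA a)) + ∑ i, r i := by
    have h1 : ((∑ i, ∑ j, (s i j - Λ.κ i) * (s i j - Λ.κ i) : ℚ) : PadicAlgCl ℓ) =
        ((∑ a, Λ.c a * (∑ j, (t a j - Λ.κA a) * (t a j - Λ.κA a)) + ∑ i, r i : ℚ) :
          PadicAlgCl ℓ) := by
      rw [Rat.cast_sum, Finset.sum_congr rfl fun i _ => hr i, Finset.sum_add_distrib,
        Λ.index ν ν, Rat.cast_add, Rat.cast_sum, Rat.cast_sum]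
      congr 1
      refine Finset.sum_congr rfl fun a _ => ?_
      rw [Rat.cast_mul, hr' a, hra a, Rat.cast_zero, add_zero]
    exact_mod_cast h1
  have hD : ∑ i, ∑ j, ((M i).hs j - Λ.κ i) * ((M i).hs j - Λ.κ i) =
      ∑ a, Λ.c a * (∑ j, ((A a).hs j - Λ.κA a) * ((A a).hs j - Λ.κA a)) := by
    have h1 : ((∑ i, ∑ j, ((M i).hs j - Λ.κ i) * ((M i).hs j - Λ.κ i) : ℚ) : PadicAlgCl ℓ) =
        ((∑ a, Λ.c a * (∑ j, ((A a).hs j - Λ.κA a) * ((A a).hs j - Λ.κA a)) : ℚ) :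
          PadicAlgCl ℓ) := by
      rw [Rat.cast_sum, Finset.sum_congr rfl fun i _ => (hodge_sq (Λ.hodge i)).symm,
        Λ.index Λ.μ Λ.μ, Rat.cast_sum]
      refine Finset.sum_congr rfl fun a _ => ?_
      rw [Rat.cast_mul, hodge_sq (Λ.hodgeA a)]
    exact_mod_cast h1
  refine ⟨∑ i, r i, Finset.sum_nonneg fun i _ => hr0 i, ?_, fun h =>
    Finset.sum_eq_zero fun i _ => hirr i (h i)⟩
  have h1 : ∑ i, (∑ j, (M i).hs j ^ 2 - ∑ j, s i j ^ 2) =
      ∑ i, ∑ j, ((M i).hs j - Λ.κ i) * ((M i).hs j - Λ.κ i) -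
      ∑ i, ∑ j, (s i j - Λ.κ i) * (s i j - Λ.κ i) := by
    rw [← Finset.sum_sub_distrib]
    exact Finset.sum_congr rfl fun i _ => hd i
  have h2 : ∑ a, Λ.c a * (∑ j, (A a).hs j ^ 2 - ∑ j, t a j ^ 2) =
      ∑ a, Λ.c a * (∑ j, ((A a).hs j - Λ.κA a) * ((A a).hs j - Λ.κA a)) -
      ∑ a, Λ.c a * (∑ j, (t a j - Λ.κA a) * (t a j - Λ.κA a)) := by
    rw [← Finset.sum_sub_distrib]
    refine Finset.sum_congr rfl fun a _ => ?_
    rw [hd' a]
    ring
  rw [h1, h2, hN, hD]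
  ring

/-- **Detection.** -/
theorem ordinary_of_link {β γ : Type} [Fintype β] [Fintype γ] {M : β → IHGroup K ℓ}
    {A : γ → IHGroup K ℓ} (Λ : Link M A) {v : HeightOneSpectrum (𝓞 K)}
    (hv : ∀ i, v ∉ (M i).bad) (h : ∀ a, (A a).Ordinary v) (i : β) : (M i).Ordinary v := by
  refine ⟨hv i, fun σ hσ val hval => ?_⟩
  choose s hs using fun i => exists_newton val ((M i).eq σ⁻¹) (M i).dim
  obtain ⟨r, hr0, hr, -⟩ := defect_eq Λ hv (fun a => (h a).1) hσ hval s hs (fun a => (A a).hs)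
    (fun a => (h a).2 σ hσ val hval)
  have h1 : ∑ a, Λ.c a * (∑ j, (A a).hs j ^ 2 - ∑ j, (A a).hs j ^ 2) = 0 :=
    Finset.sum_eq_zero fun a _ => by rw [sub_self, mul_zero]
  rw [h1, zero_sub] at hr
  have h2 : ∀ i ∈ Finset.univ, 0 ≤ ∑ j, (M i).hs j ^ 2 - ∑ j, s i j ^ 2 := fun i _ =>
    (eq_of_sq (hv i) hσ hval (hs i)).1
  have h3 : ∑ j, (M i).hs j ^ 2 - ∑ j, s i j ^ 2 ≤ 0 := by
    have h4 := Finset.single_le_sum h2 (Finset.mem_univ i)
    rw [hr] at h4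
    linarith
  have h5 : s i = (M i).hs := (eq_of_sq (hv i) hσ hval (hs i)).2 h3
  rw [← h5]
  exact hs i

/-- If the `M i` are rigid and the coefficients are positive then the converse is true. -/
theorem pieces_of_link {β γ : Type} [Fintype β] [Fintype γ] {M : β → IHGroup K ℓ}
    {A : γ → IHGroup K ℓ} (Λ : Link M A)
    (hirr : ∀ i, Rigid (M i) (Λ.ρ i)) (hc : ∀ a, 0 < Λ.c a)
    {v : HeightOneSpectrum (𝓞 K)} (hvA : ∀ a, v ∉ (A a).bad) (h : ∀ i, (M i).Ordinary v) (a : γ) :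
    (A a).Ordinary v := by
  refine ⟨hvA a, fun σ hσ val hval => ?_⟩
  choose t ht using fun a => exists_newton val ((A a).eq σ⁻¹) (A a).dim
  obtain ⟨r, hr0, hr, hr2⟩ := defect_eq Λ (fun i => (h i).1) hvA hσ hval (fun i => (M i).hs)
    (fun i => (h i).2 σ hσ val hval) t ht
  have h1 : ∑ i, (∑ j, (M i).hs j ^ 2 - ∑ j, (M i).hs j ^ 2) = 0 :=
    Finset.sum_eq_zero fun i _ => sub_self _
  rw [h1, hr2 hirr, sub_zero] at hr
  have h3 : ∀ a ∈ Finset.univ, 0 ≤ Λ.c a * (∑ j, (A a).hs j ^ 2 - ∑ j, t a j ^ 2) :=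
    fun a _ => mul_nonneg (hc a).le (eq_of_sq (hvA a) hσ hval (ht a)).1
  have h4 := (Finset.sum_eq_zero_iff_of_nonneg h3).1 hr.symm a (Finset.mem_univ a)
  have h5 := (mul_eq_zero.1 h4).resolve_left (hc a).ne'
  have h6 : t a = (A a).hs := (eq_of_sq (hvA a) hσ hval (ht a)).2 h5.le
  rw [← h6]
  exact ht a

end

end Pool.Agent.V7H61.LieOrd
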