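import Pool.Agent.V7H61.LieOrd.Small

/-!
# Lie algebra detection of ordinarity: places where a small group is not ordinary
-/

set_option autoImplicit false
set_option linter.all false

namespace Pool.Agent.V7H61.LieOrd

open Module Polynomial NumberField IsDedekindDomain
open Pool.Agent.W401.Cheb Pool.Agent.N184.HK

section

variable {K : Type} [Field K] [NumberField K] {ℓ : ℕ} [Fact ℓ.Prime]
  {χ : GK K →* PadicAlgCl ℓ} {A : IHGroup K ℓ} (s : Small χ A)

include s in
lemma poly_monic {v : HeightOneSpectrum (𝓞 K)} (hv : v ∉ A.bad) {σ : GK K}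
    (hσ : IsFrob v σ) : (s.poly v).Monic ∧ (s.poly v).natDegree = A.n := by
  have h1 := s.frob v hv σ hσ
  have h2 := LinearMap.charpoly_monic (A.r σ⁻¹)
  have h3 := LinearMap.charpoly_natDegree (A.r σ⁻¹)
  rw [h1] at h2 h3
  rw [natDegree_map_eq_of_injective (RingHom.injective_int _), A.dim] at h3
  exact ⟨monic_of_injective (RingHom.injective_int _) h2, h3⟩

lemma slopes_dual {v : HeightOneSpectrum (𝓞 K)} (hv : v ∉ A.bad)
    {σ : GK K} (hσ : IsFrob v σ) {val : AddValuation (PadicAlgCl ℓ) (WithTop ℚ)}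
    (hval : val (Ideal.absNorm v.asIdeal : PadicAlgCl ℓ) = 1) {t : Fin A.n → ℚ}
    (ht : IsNewton val (A.r σ⁻¹) t) (j : Fin A.n) : t j + t (Fin.rev j) = s.w + 2 * s.t := by
  set N := Ideal.absNorm v.asIdeal with hN
  obtain ⟨q, hq⟩ : ∃ q : ℕ, q = s.w + 2 * s.t := ⟨_, rfl⟩
  have hqq : (q : ℚ) = s.w + 2 * s.t := by rw [hq]; push_cast; ring
  have hd := roots_dual (P := s.poly v) (q := N ^ q)
    (fun z hz => by rw [s.weil v hv z hz, hq]; push_cast; rfl) (C := PadicAlgCl ℓ)
  rw [← s.frob v hv σ hσ] at hd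
  have hsl := ht.slopes'
  have hN0 : (N : PadicAlgCl ℓ) ≠ 0 := by
    intro h
    rw [h, val.map_zero] at hval
    exact absurd hval (by decide)
  have hNw : vw val (N : PadicAlgCl ℓ) = 1 := by
    rw [vw, hval]; rfl
  have hpow : ∀ k : ℕ, vw val ((N : PadicAlgCl ℓ) ^ k) = k := by
    intro k
    induction k with
    | zero => rw [pow_zero, vw, val.map_one]; simp
    | succ k ih =>
      rw [pow_succ, vw_mul val _ _ (pow_ne_zero k hN0) hN0, ih, hNw]
      push_cast
      ring
  have h1 : (A.r σ⁻¹).charpoly.roots.map (vw val) =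
      (A.r σ⁻¹).charpoly.roots.map (fun x => (q : ℚ) - vw val x) := by
    conv_lhs => rw [← hd]
    rw [Multiset.map_map]
    refine Multiset.map_congr rfl fun x hx => ?_
    have hx0 : x ≠ 0 := root_ne (φ := A.eq σ⁻¹) hx
    have h2 : ((N ^ q : ℕ) : PadicAlgCl ℓ) / x * x = (N : PadicAlgCl ℓ) ^ q := by
      rw [div_mul_cancel₀ _ hx0]; push_cast; rfl
    have h3 : ((N ^ q : ℕ) : PadicAlgCl ℓ) / x ≠ 0 := by
      refine div_ne_zero ?_ hx0
      push_cast
      exact pow_ne_zero _ hN0
    have h4 := vw_mul val _ x h3 hx0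
    rw [h2, hpow] at h4
    change vw val (((N ^ q : ℕ) : PadicAlgCl ℓ) / x) = _
    linarith
  have h2 : (A.r σ⁻¹).charpoly.roots.map (fun x => (q : ℚ) - vw val x) =
      Finset.univ.val.map (fun j => (q : ℚ) - t j) := by
    have h3 := congrArg (Multiset.map (fun x : ℚ => (q : ℚ) - x)) hsl
    rw [Multiset.map_map, Multiset.map_map] at h3
    exact h3
  have h3 : Finset.univ.val.map (fun j => (q : ℚ) - t j) =
      Finset.univ.val.map (fun j => (q : ℚ) - t (Fin.rev j)) := by
    have h4 := Multiset.map_univ_val_equiv (Fin.revPerm (n := A.n))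
    have h5 := congrArg (Multiset.map (fun j => (q : ℚ) - t j)) h4
    rw [Multiset.map_map] at h5
    exact h5.symm
  have h4 : t = fun j => (q : ℚ) - t (Fin.rev j) := by
    refine mono_unique ht.1 ?_ ?_
    · intro i j hij
      have := ht.1 (Fin.rev_le_rev.2 hij)
      simp only
      linarith
    · rw [← h3, ← h2, ← h1, hsl]
  have h5 := congrFun h4 j
  linarith

/-- At a place of degree one where a small group is not ordinary. -/
lemma not_ordinary {v : HeightOneSpectrum (𝓞 K)} (hv : v ∉ A.bad)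
    (hp : (Ideal.absNorm v.asIdeal).Prime) (hno : ¬ A.Ordinary v) :
    s.h ≠ 0 ∧ ∃ k : ℤ, |k| ≤ A.n.choose s.h ∧ ∀ σ, IsFrob v σ →
      (A.r σ⁻¹).charpoly.coeff (A.n - s.h) = (k : PadicAlgCl ℓ) * χ σ ^ (s.t * s.h + 1) := by
  unfold IHGroup.Ordinary at hno
  push Not at hno
  obtain ⟨σ, hσ, val, hval, hno⟩ := hno hv
  obtain ⟨t, ht⟩ := exists_newton val (A.eq σ⁻¹) A.dim
  rw [IHGroup.en_eq] at ht
  have hne : t ≠ A.hs := fun h => hno (h ▸ ht)
  have hab := A.above v hv σ hσ val hval t ht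
  have hdual := slopes_dual s hv hσ hval ht
  set N := Ideal.absNorm v.asIdeal with hN
  obtain ⟨j0, hj0, htj0⟩ : ∃ j0 : Fin A.n, (j0 : ℕ) < s.h ∧ t j0 ≠ s.t := by
    by_contra hcon
    push Not at hcon
    exact hne (eq_of_zero s.type.1 ht.1 hab s.type.2 hdual hcon)
  have hle := s.type.1
  have hn0 : 0 < A.n := by have := j0.isLt; omega
  have ht0 : ∀ j, (s.t : ℚ) ≤ t j := by
    have a1 := hab.1 1
    have f1 : Finset.univ.filter (fun j : Fin A.n => (j : ℕ) < 1) = {⟨0, hn0⟩} := by
      ext j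
      simp only [Finset.mem_filter, Finset.mem_univ, true_and, Finset.mem_singleton, Fin.ext_iff]
      omega
    rw [f1, Finset.sum_singleton, Finset.sum_singleton, s.type.2,
      if_pos (show (0 : ℕ) < s.h by omega)] at a1
    exact fun j => a1.trans (ht.1 (Fin.mk_le_of_le_val (Nat.zero_le _)))
  have htpos : (s.t : ℚ) < t j0 := lt_of_le_of_ne (ht0 j0) (Ne.symm htj0)
  obtain ⟨hPm, hPd⟩ := poly_monic s hv hσ
  have hfr := s.frob v hv σ hσ
  have hrootne : ∀ x ∈ (A.r σ⁻¹).charpoly.roots, x ≠ 0 := fun x hx => root_ne (φ := A.eq σ⁻¹) hx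
  have hroot : ∀ x ∈ (A.r σ⁻¹).charpoly.roots, (s.t : ℚ) ≤ vw val x := by
    intro x hx
    have h4 := Multiset.mem_map_of_mem (vw val) hx
    rw [ht.slopes'] at h4
    obtain ⟨j, -, hj⟩ := Multiset.mem_map.1 h4
    rw [← hj]
    exact ht0 j
  have hdeg : (A.r σ⁻¹).charpoly.natDegree = A.n := by
    rw [LinearMap.charpoly_natDegree, A.dim]
  have hpos : ((s.h * s.t : ℚ) : WithTop ℚ) <
      val ((A.r σ⁻¹).charpoly.coeff (A.n - s.h)) := by
    have h5 := val_coeff_pos val (LinearMap.charpoly_monic (A.r σ⁻¹))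
      (IsAlgClosed.splits _).natDegree_eq_card_roots.symm (h := s.h) (τ := (s.t : ℚ))
      (by rw [hdeg]; omega) hrootne hroot ?_
    · rwa [hdeg] at h5
    · intro T hT hTc
      by_contra hcon
      push Not at hcon
      have h6 : T.map (vw val) = Multiset.replicate s.h (s.t : ℚ) := by
        rw [← hTc, ← Multiset.map_const']
        exact Multiset.map_congr rfl fun x hx =>
          le_antisymm (hcon x hx) (hroot x (Multiset.mem_of_le hT hx))
      have h7 : Multiset.replicate s.h (s.t : ℚ) ≤ Finset.univ.val.map t := by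
        rw [← h6, ← ht.slopes']
        exact Multiset.map_le_map hT
      rw [← Multiset.le_count_iff_replicate_le, Multiset.count_map] at h7
      have h8 : Multiset.card (Finset.univ.val.filter (fun j => (s.t : ℚ) = t j)) ≤ (j0 : ℕ) := by
        have h9 : (Finset.univ.filter (fun j => (s.t : ℚ) = t j)) ⊆
            Finset.univ.filter (fun j : Fin A.n => j < j0) := by
          intro j hj
          simp only [Finset.mem_filter, Finset.mem_univ, true_and] at hj ⊢
          by_contra h10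
          have := ht.1 (not_lt.1 h10)
          linarith
        have h10 := Finset.card_le_card h9
        have h11 : Finset.univ.filter (fun j : Fin A.n => j < j0) = Finset.Iio j0 := by
          ext j; simp
        rw [h11, Fin.card_Iio] at h10
        exact h10
      omega
  rw [hfr, coeff_map] at hpos
  have hpos' : (((s.t * s.h : ℕ) : ℚ) : WithTop ℚ) <
      val (((s.poly v).coeff (A.n - s.h) : ℤ) : PadicAlgCl ℓ) := by
    have : ((s.t * s.h : ℕ) : ℚ) = s.h * s.t := by push_cast; ring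
    rw [this]
    exact hpos
  obtain ⟨k, hk⟩ := pow_dvd_of_val val hp hval _ _ hpos'
  have hNpos : (0 : ℤ) < (N : ℤ) ^ (s.t * s.h + 1) := by
    have := hp.pos
    positivity
  refine ⟨by omega, k, ?_, fun τ hτ => ?_⟩
  · have h1 := abs_coeff_le hPm (N := N) (w := s.w) (h := s.h) (t := s.t) hp.one_lt.le
      s.small (by rw [hPd]; omega) (s.weil v hv)
    rw [hPd, hk, abs_mul, abs_of_pos hNpos, mul_comm] at h1
    exact le_of_mul_le_mul_right h1 hNpos
  · rw [s.frob v hv τ hτ, coeff_map, hk, s.frobχ v hv τ hτ]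
    simp [mul_comm, hN]

end

end Pool.Agent.V7H61.LieOrd
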