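import Pool.Agent.V7H61.LieOrd.Ord
import Pool.Agent.N184.HK.Num

/-!
# Lie algebra detection of ordinarity: small pieces
-/

set_option autoImplicit false
set_option linter.all false

namespace Pool.Agent.V7H61.LieOrd

open Module Polynomial NumberField IsDedekindDomain
open Pool.Agent.W401.Cheb Pool.Agent.N184.HK

/-- If the first `h` slopes are minimal then the polygon is the Hodge polygon. -/
lemma eq_of_zero {n h w : ℕ} {τ : ℚ} (hle : 2 * h ≤ n) {s t : Fin n → ℚ} (mono : Monotone s)
    (habove : Above s t)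
    (type : ∀ j : Fin n, t j =
      if (j : ℕ) < h then τ else if (j : ℕ) + h < n then (τ + w / 2 : ℚ) else τ + w)
    (dual : ∀ j, s j + s (Fin.rev j) = w + 2 * τ) (hz : ∀ j : Fin n, (j : ℕ) < h → s j = τ) :
    s = t := by
  have hmid : ∀ j : Fin n, h ≤ (j : ℕ) → (j : ℕ) + h < n → (τ + w / 2 : ℚ) ≤ s j := by
    intro j hj hj2
    have hn : h < n := by omega
    have a1 := habove.1 (h + 1)
    have f1 : Finset.univ.filter (fun j : Fin n => (j : ℕ) < h + 1) =
        insert ⟨h, hn⟩ (Finset.univ.filter (fun j : Fin n => (j : ℕ) < h)) := by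
      ext i
      simp only [Finset.mem_filter, Finset.mem_univ, true_and, Finset.mem_insert, Fin.ext_iff]
      omega
    have hnot : (⟨h, hn⟩ : Fin n) ∉ Finset.univ.filter (fun j : Fin n => (j : ℕ) < h) := by
      simp
    rw [f1, Finset.sum_insert hnot, Finset.sum_insert hnot, type,
      if_neg (lt_irrefl _), if_pos (show (h : ℕ) + h < n by omega)] at a1
    have z1 : ∑ j ∈ Finset.univ.filter (fun j : Fin n => (j : ℕ) < h), t j =
        ∑ j ∈ Finset.univ.filter (fun j : Fin n => (j : ℕ) < h), s j :=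
      Finset.sum_congr rfl fun j hj => by
        rw [type, if_pos (Finset.mem_filter.1 hj).2, hz j (Finset.mem_filter.1 hj).2]
    rw [z1] at a1
    exact (le_of_add_le_add_right a1).trans (mono (by rw [Fin.le_def]; exact hj))
  ext j
  rw [type j]
  have hd := dual j
  have hrev : ((Fin.rev j : Fin n) : ℕ) = n - ((j : ℕ) + 1) := Fin.val_rev j
  have hjn := j.isLt
  split_ifs with h1 h2
  · exact hz j h1
  · have h3 := hmid j (by omega) h2
    have h4 := hmid (Fin.rev j) (by omega) (by omega)
    linarith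
  · have h3 := hz (Fin.rev j) (by omega)
    rw [h3] at hd
    linarith

section val

variable {C : Type} [Field C]

lemma vw_prod (val : AddValuation C (WithTop ℚ)) (m : Multiset C) (h0 : ∀ x ∈ m, x ≠ 0) :
    m.prod ≠ 0 ∧ vw val m.prod = (m.map (vw val)).sum := by
  induction m using Multiset.induction_on with
  | empty =>
    refine ⟨by simp, ?_⟩
    rw [Multiset.prod_zero, vw, val.map_one]
    simp
  | cons a s ih =>
    obtain ⟨h1, h2⟩ := ih fun x hx => h0 x (Multiset.mem_cons_of_mem hx)
    have ha := h0 a (Multiset.mem_cons_self a s)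
    rw [Multiset.prod_cons, Multiset.map_cons, Multiset.sum_cons]
    exact ⟨mul_ne_zero ha h1, by rw [vw_mul val _ _ ha h1, h2]⟩

lemma sum_gt (τ : ℚ) (m : Multiset ℚ) (h0 : ∀ x ∈ m, τ ≤ x) :
    Multiset.card m * τ ≤ m.sum ∧ ((∃ y ∈ m, τ < y) → Multiset.card m * τ < m.sum) := by
  induction m using Multiset.induction_on with
  | empty => simp
  | cons a s ih =>
    obtain ⟨h1, h2⟩ := ih fun x hx => h0 x (Multiset.mem_cons_of_mem hx)
    have ha := h0 a (Multiset.mem_cons_self a s)
    rw [Multiset.card_cons, Multiset.sum_cons]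
    push_cast
    refine ⟨by linarith, ?_⟩
    rintro ⟨y, hy, hyt⟩
    rcases Multiset.mem_cons.1 hy with rfl | hy
    · linarith
    · have := h2 ⟨y, hy, hyt⟩
      linarith

lemma val_sum_gt (val : AddValuation C (WithTop ℚ)) (c : ℚ) (m : Multiset C)
    (h0 : ∀ x ∈ m, (c : WithTop ℚ) < val x) : (c : WithTop ℚ) < val m.sum := by
  induction m using Multiset.induction_on with
  | empty =>
    rw [Multiset.sum_zero, val.map_zero]
    exact WithTop.coe_lt_top c
  | cons a s ih =>
    rw [Multiset.sum_cons]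
    exact (lt_min (h0 a (Multiset.mem_cons_self a s))
      (ih fun x hx => h0 x (Multiset.mem_cons_of_mem hx))).trans_le (val.map_add _ _)

/-- The coefficient has large valuation if there are fewer than `h` roots of minimal valuation. -/
lemma val_coeff_pos (val : AddValuation C (WithTop ℚ)) {P : C[X]} (hP : P.Monic)
    (hs : Multiset.card P.roots = P.natDegree) {h : ℕ} {τ : ℚ} (hh : h ≤ P.natDegree)
    (hne : ∀ x ∈ P.roots, x ≠ 0) (h0 : ∀ x ∈ P.roots, τ ≤ vw val x)
    (hlt : ∀ t ≤ P.roots, Multiset.card t = h → ∃ x ∈ t, τ < vw val x) :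
    ((h * τ : ℚ) : WithTop ℚ) < val (P.coeff (P.natDegree - h)) := by
  have e := Polynomial.coeff_eq_esymm_roots_of_card hs (k := P.natDegree - h) (Nat.sub_le _ _)
  rw [e, hP.leadingCoeff, one_mul, val.map_mul]
  have h1 : P.natDegree - (P.natDegree - h) = h := by omega
  rw [h1]
  have h2 : (0 : WithTop ℚ) ≤ val ((-1 : C) ^ h) := by
    rw [val.map_pow, val.map_neg, val.map_one, smul_zero]
  refine lt_of_lt_of_le (val_sum_gt val _ _ fun y hy => ?_) (le_add_of_nonneg_left h2)
  obtain ⟨t, ht, rfl⟩ := Multiset.mem_map.1 hy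
  obtain ⟨ht1, ht2⟩ := Multiset.mem_powersetCard.1 ht
  obtain ⟨x, hx, hx2⟩ := hlt t ht1 ht2
  obtain ⟨h3, h4⟩ := vw_prod val t fun z hz => hne z (Multiset.mem_of_le ht1 hz)
  have h5 := (sum_gt τ (t.map (vw val)) (by
    intro z hz
    obtain ⟨z', hz', rfl⟩ := Multiset.mem_map.1 hz
    exact h0 z' (Multiset.mem_of_le ht1 hz'))).2 ⟨vw val x, Multiset.mem_map_of_mem _ hx, hx2⟩
  rw [Multiset.card_map, ht2, ← h4] at h5
  rw [← coe_vw val h3]
  exact_mod_cast h5

/-- Divisibility. -/
lemma dvd_of_val (val : AddValuation C (WithTop ℚ)) {N : ℕ} (hN : N.Prime)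
    (hval : val (N : C) = 1) {z : ℤ} (hz : 0 < val (z : C)) : (N : ℤ) ∣ z := by
  by_contra hnd
  have hc : IsCoprime (N : ℤ) z :=
    (Nat.prime_iff_prime_int.1 hN).irreducible.coprime_iff_not_dvd.2 hnd
  obtain ⟨a, b, hab⟩ := hc
  have h5 : val (1 : C) = 0 := val.map_one
  have h6 : (1 : C) = (a : C) * (N : C) + (b : C) * (z : C) := by
    have := congrArg (fun z : ℤ => (z : C)) hab
    push_cast at this
    exact this.symm
  have h7 : 0 < val (1 : C) := by
    rw [h6]
    refine (lt_min ?_ ?_).trans_le (val.map_add _ _)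
    · rw [val.map_mul, hval]
      exact lt_of_lt_of_le zero_lt_one (le_add_of_nonneg_left (val_int _ a))
    · rw [val.map_mul]
      exact lt_of_lt_of_le hz (le_add_of_nonneg_left (val_int _ b))
  rw [h5] at h7
  exact lt_irrefl _ h7

/-- Divisibility by powers. -/
lemma pow_dvd_of_val (val : AddValuation C (WithTop ℚ)) {N : ℕ} (hN : N.Prime)
    (hval : val (N : C) = 1) (k : ℕ) : ∀ z : ℤ, ((k : ℚ) : WithTop ℚ) < val (z : C) →
    (N : ℤ) ^ (k + 1) ∣ z := by
  induction k with
  | zero =>
    intro z hz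
    rw [zero_add, pow_one]
    refine dvd_of_val val hN hval ?_
    simpa using hz
  | succ k ih =>
    intro z hz
    have h1 : (N : ℤ) ∣ z := by
      refine dvd_of_val val hN hval (lt_of_le_of_lt ?_ hz)
      have : (0 : ℚ) ≤ ((k + 1 : ℕ) : ℚ) := by positivity
      exact_mod_cast this
    obtain ⟨z', rfl⟩ := h1
    rw [pow_succ']
    refine mul_dvd_mul_left _ (ih z' ?_)
    push_cast at hz
    rw [val.map_mul, hval] at hz
    by_cases htop : val (z' : C) = ⊤
    · rw [htop]; exact WithTop.coe_lt_top _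
    · obtain ⟨q, hq⟩ := WithTop.ne_top_iff_exists.1 htop
      rw [← hq] at hz ⊢
      have h2 : (((k : ℚ) + 1 : ℚ) : WithTop ℚ) < ((1 + q : ℚ) : WithTop ℚ) := by
        exact_mod_cast hz
      have h3 := WithTop.coe_lt_coe.1 h2
      rw [WithTop.coe_lt_coe]
      linarith

end val

/-- The bound for the coefficient. -/
lemma abs_coeff_le {P : ℤ[X]} (hP : P.Monic) {N w h t : ℕ} (hN : 1 ≤ N) (hwh : w * h ≤ 2)
    (hh : h ≤ P.natDegree)
    (hw : ∀ z ∈ (P.map (Int.castRingHom ℂ)).roots, ‖z‖ ^ 2 = (N : ℝ) ^ (w + 2 * t)) :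
    |P.coeff (P.natDegree - h)| ≤ (P.natDegree.choose h : ℤ) * N ^ (t * h + 1) := by
  set Q := P.map (Int.castRingHom ℂ) with hQ
  have hQm : Q.Monic := hP.map _
  have hdeg : Q.natDegree = P.natDegree :=
    natDegree_map_eq_of_injective (RingHom.injective_int _) P
  have hs : Multiset.card Q.roots = Q.natDegree :=
    (IsAlgClosed.splits Q).natDegree_eq_card_roots.symm
  have e := Polynomial.coeff_eq_esymm_roots_of_card hs (k := Q.natDegree - h) (Nat.sub_le _ _)
  have h1 : Q.natDegree - (Q.natDegree - h) = h := by omega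
  rw [hQm.leadingCoeff, one_mul, h1] at e
  have hN1 : (1 : ℝ) ≤ N := by exact_mod_cast hN
  have hprod : ∀ T : Multiset ℂ, (∀ z ∈ T, ‖z‖ ^ 2 = (N : ℝ) ^ (w + 2 * t)) →
      ‖T.prod‖ ^ 2 = (N : ℝ) ^ ((w + 2 * t) * Multiset.card T) := by
    intro T
    induction T using Multiset.induction_on with
    | empty => intro _; simp
    | cons a s ih =>
      intro hh
      rw [Multiset.prod_cons, norm_mul, mul_pow, hh a (Multiset.mem_cons_self a s),
        ih fun z hz => hh z (Multiset.mem_cons_of_mem hz), Multiset.card_cons, ← pow_add]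
      congr 1
      ring
  have hsum : ∀ m : Multiset ℂ, (∀ z ∈ m, ‖z‖ ≤ (N : ℝ) ^ (t * h + 1)) →
      ‖m.sum‖ ≤ Multiset.card m * (N : ℝ) ^ (t * h + 1) := by
    intro m
    induction m using Multiset.induction_on with
    | empty => intro _; simp
    | cons a s ih =>
      intro hh
      rw [Multiset.sum_cons, Multiset.card_cons]
      refine (norm_add_le _ _).trans ?_
      have h5 := ih fun z hz => hh z (Multiset.mem_cons_of_mem hz)
      have h6 := hh a (Multiset.mem_cons_self a s)
      push_cast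
      linarith
  have h2 : ‖Q.roots.esymm h‖ ≤ (Q.natDegree.choose h : ℝ) * N ^ (t * h + 1) := by
    have h3 := hsum ((Multiset.powersetCard h Q.roots).map Multiset.prod) (by
      intro z hz
      obtain ⟨T, ht, rfl⟩ := Multiset.mem_map.1 hz
      obtain ⟨ht1, ht2⟩ := Multiset.mem_powersetCard.1 ht
      have h4 := hprod T fun z hz => hw z (Multiset.mem_of_le ht1 hz)
      rw [ht2] at h4
      have h5 : (N : ℝ) ^ ((w + 2 * t) * h) ≤ (N : ℝ) ^ ((t * h + 1) * 2) :=
        pow_le_pow_right₀ hN1 (by nlinarith)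
      rw [← h4, pow_mul] at h5
      exact (pow_le_pow_iff_left₀ (norm_nonneg _) (by positivity) two_ne_zero).1 h5)
    rw [Multiset.card_map, Multiset.card_powersetCard, hs] at h3
    exact h3
  have h3 : ‖(Q.coeff (Q.natDegree - h))‖ ≤ (Q.natDegree.choose h : ℝ) * N ^ (t * h + 1) := by
    rw [e, norm_mul, norm_pow, norm_neg, norm_one, one_pow, one_mul]
    exact h2
  rw [hdeg, hQ, coeff_map] at h3
  change ‖((P.coeff (P.natDegree - h) : ℤ) : ℂ)‖ ≤ _ at h3
  rw [Complex.norm_intCast] at h3
  exact_mod_cast h3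

lemma exists_hom (F : Type) [Field F] [CharZero F] [IsAlgClosed F] :
    Nonempty (AlgebraicClosure ℚ →+* F) := by
  have e : (DivisionRing.toRatAlgebra : Algebra ℚ (AlgebraicClosure ℚ)) =
    AlgebraicClosure.instAlgebra ℚ := Subsingleton.elim _ _
  haveI : @Algebra.IsAlgebraic ℚ (AlgebraicClosure ℚ) _ _ DivisionRing.toRatAlgebra := by
    rw [e]
    exact AlgebraicClosure.isAlgebraic ℚ
  exact ⟨(IsAlgClosed.lift (R := ℚ) (S := AlgebraicClosure ℚ) (M := F)).toRingHom⟩

/-- Duality: complex conjugation. -/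
lemma roots_dual {P : ℤ[X]} {q : ℕ} (hw : ∀ z ∈ (P.map (Int.castRingHom ℂ)).roots,
    ‖z‖ ^ 2 = (q : ℝ)) {C : Type} [Field C] [CharZero C] [IsAlgClosed C] :
    (P.map (Int.castRingHom C)).roots.map (fun x => (q : C) / x) =
      (P.map (Int.castRingHom C)).roots := by
  have hroots : ∀ (F : Type) [Field F] (ι : AlgebraicClosure ℚ →+* F),
      (P.map (Int.castRingHom F)).roots =
        (P.map (Int.castRingHom (AlgebraicClosure ℚ))).roots.map ι := by
    intro F _ ι
    have h1 : P.map (Int.castRingHom F) = (P.map (Int.castRingHom (AlgebraicClosure ℚ))).map ι := by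
      rw [Polynomial.map_map]
      congr 1
      exact RingHom.ext_int _ _
    rw [h1]
    exact (IsAlgClosed.splits _).roots_map ι
  have key : ∀ (F : Type) [Field F] [IsAlgClosed F] (e : F →+* F),
      (P.map (Int.castRingHom F)).roots.map e = (P.map (Int.castRingHom F)).roots := by
    intro F _ _ e
    have h1 : P.map (Int.castRingHom F) = (P.map (Int.castRingHom F)).map e := by
      rw [Polynomial.map_map]
      congr 1
      exact RingHom.ext_int _ _
    conv_rhs => rw [h1]
    exact ((IsAlgClosed.splits _).roots_map e).symm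
  have hC : (P.map (Int.castRingHom ℂ)).roots.map (fun x => (q : ℂ) / x) =
      (P.map (Int.castRingHom ℂ)).roots := by
    conv_rhs => rw [← key ℂ (starRingEnd ℂ)]
    refine Multiset.map_congr rfl fun z hz => ?_
    by_cases hz0 : z = 0
    · rw [hz0]; simp
    · rw [div_eq_iff hz0, mul_comm, Complex.mul_conj, Complex.normSq_eq_norm_sq, hw z hz]
      simp
  obtain ⟨ι⟩ := exists_hom ℂ
  obtain ⟨ι'⟩ := exists_hom C
  have hmap : ∀ (F : Type) [Field F] (ι : AlgebraicClosure ℚ →+* F)
      (m : Multiset (AlgebraicClosure ℚ)),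
      (m.map ι).map (fun x => (q : F) / x) = (m.map (fun x => (q : AlgebraicClosure ℚ) / x)).map ι := by
    intro F _ ι m
    rw [Multiset.map_map, Multiset.map_map]
    refine Multiset.map_congr rfl fun z _ => ?_
    simp
  have hA : (P.map (Int.castRingHom (AlgebraicClosure ℚ))).roots.map
      (fun x => (q : AlgebraicClosure ℚ) / x) =
      (P.map (Int.castRingHom (AlgebraicClosure ℚ))).roots := by
    rw [hroots ℂ ι, hmap] at hC
    exact Multiset.map_injective ι.injective hC
  rw [hroots C ι', hmap, hA]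

end Pool.Agent.V7H61.LieOrd
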