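import Pool.Agent.V7H61.LieOrd.Main
import Pool.Agent.V7H61.LieOrd.Cl
import Pool.Agent.W850.Ord.LowDens

/-!
# Lie algebra detection of ordinarity: a universal set of places
-/

set_option autoImplicit false
set_option linter.all false

namespace Pool.Agent.V7H61.LieOrd

open Module Polynomial NumberField IsDedekindDomain Filter Topology
open Pool.Agent.W401.Cheb Pool.Agent.N184.HK Pool.Agent.W528.Ord Pool.Agent.R915.Ord
open Pool.Agent.W850.Ord

section

variable {K : Type} [Field K] [NumberField K] {ℓ : ℕ} [Fact ℓ.Prime] {ι : Type}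
  {χ : GK K →* PadicAlgCl ℓ} {A : ι → IHGroup K ℓ}

/-- monotonicity of the closure -/
lemma closure_mono {κ : Type} {B : κ → IHGroup K ℓ} (h : ∀ a, Closure B (A a))
    {M : IHGroup K ℓ} (hM : Closure A M) : Closure B M := by
  induction hM with
  | base a => exact h a
  | split M h => exact Closure.split M h
  | const M h => exact Closure.const M h
  | sum M B h hM ih => exact Closure.sum M B h ih
  | summand M B h hB i ih => exact Closure.summand M B h ih i
  | tensor M N B h hM hN ih1 ih2 => exact Closure.tensor M N B h ih1 ih2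
  | left M N B h hn hB ih => exact Closure.left M N B h hn ih
  | right M N B h hn hB ih => exact Closure.right M N B h hn ih
  | dual M B h hM ih => exact Closure.dual M B h ih
  | link M B Λ hB i ih => exact Closure.link M B Λ ih i
  | colink M B Λ hrig hc hM c ih => exact Closure.colink M B Λ hrig hc ih c
  | simple M B Λ hB ih => exact Closure.simple M B Λ ih

/-- finite support -/
lemma closure_fin (e : ι → ℕ) {M : IHGroup K ℓ} (hM : Closure A M) :
    ∃ n, Closure (fun a : {a // e a < n} => A a) M := by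
  have hmono : ∀ {n m : ℕ}, n ≤ m → ∀ {M : IHGroup K ℓ},
      Closure (fun a : {a // e a < n} => A a) M → Closure (fun a : {a // e a < m} => A a) M :=
    fun {n m} hnm {M} h => closure_mono (A := fun a : {a // e a < n} => A a)
      (fun a => Closure.base (A := fun a : {a // e a < m} => A a)
      ⟨a.1, lt_of_lt_of_le a.2 hnm⟩) h
  have hfam : ∀ {β : Type} [Fintype β] (M : β → IHGroup K ℓ),
      (∀ i, ∃ n, Closure (fun a : {a // e a < n} => A a) (M i)) →
      ∃ n, ∀ i, Closure (fun a : {a // e a < n} => A a) (M i) := by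
    intro β _ M h
    choose n hn using h
    exact ⟨Finset.univ.sup n, fun i => hmono (Finset.le_sup (Finset.mem_univ i)) (hn i)⟩
  induction hM with
  | base a => exact ⟨e a + 1, Closure.base (A := fun a' : {a' // e a' < e a + 1} => A a')
      ⟨a, Nat.lt_succ_self _⟩⟩
  | split M h => exact ⟨0, Closure.split M h⟩
  | const M h => exact ⟨0, Closure.const M h⟩
  | sum M B h hM ih =>
    obtain ⟨n, hn⟩ := hfam M ih
    exact ⟨n, Closure.sum M B h hn⟩
  | summand M B h hB i ih =>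
    obtain ⟨n, hn⟩ := ih
    exact ⟨n, Closure.summand M B h hn i⟩
  | tensor M N B h hM hN ih1 ih2 =>
    obtain ⟨n, hn⟩ := ih1
    obtain ⟨m, hm⟩ := ih2
    exact ⟨max n m, Closure.tensor M N B h (hmono (le_max_left _ _) hn)
      (hmono (le_max_right _ _) hm)⟩
  | left M N B h hn' hB ih =>
    obtain ⟨n, hn⟩ := ih
    exact ⟨n, Closure.left M N B h hn' hn⟩
  | right M N B h hn' hB ih =>
    obtain ⟨n, hn⟩ := ih
    exact ⟨n, Closure.right M N B h hn' hn⟩
  | dual M B h hM ih =>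
    obtain ⟨n, hn⟩ := ih
    exact ⟨n, Closure.dual M B h hn⟩
  | link M B Λ hB i ih =>
    obtain ⟨n, hn⟩ := hfam B ih
    exact ⟨n, Closure.link M B Λ hn i⟩
  | colink M B Λ hrig hc hM c ih =>
    obtain ⟨n, hn⟩ := hfam M ih
    exact ⟨n, Closure.colink M B Λ hrig hc hn c⟩
  | simple M B Λ hB ih =>
    obtain ⟨n, hn⟩ := ih
    exact ⟨n, Closure.simple M B Λ hn⟩

section desc

variable {K₀ : Type} [Field K₀] [NumberField K₀] [Algebra K₀ K]

/-- descent at one place -/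
lemma ordinary_desc {M₀ : IHGroup K₀ ℓ} {M : IHGroup K ℓ} (h : IsBaseChange M₀ M)
    {v : HeightOneSpectrum (𝓞 K)} {v₀ : HeightOneSpectrum (𝓞 K₀)}
    (hv₀ : v₀ ∉ M₀.bad) (hN : Ideal.absNorm v₀.asIdeal = Ideal.absNorm v.asIdeal)
    (hf : ∀ σ₀, IsFrob v₀ σ₀ → ∃ σ, IsFrob v σ ∧ (M₀.r σ₀⁻¹).charpoly = (M.r σ⁻¹).charpoly)
    (ho : M.Ordinary v) : M₀.Ordinary v₀ := by
  refine ⟨hv₀, fun σ₀ hσ₀ val hval => ⟨M₀.mono, ?_⟩⟩
  obtain ⟨σ, hσ, he⟩ := hf σ₀ hσ₀
  rw [hN] at hval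
  have h1 := (ho.2 σ hσ val hval).2
  have h2 : ∀ {n : ℕ} (f : Fin n → ℚ), Finset.univ.val.map (fun j => ((f j : ℚ) : WithTop ℚ)) =
      (Finset.univ.val.map f).map (fun x : ℚ => (x : WithTop ℚ)) := by
    intro n f
    rw [Multiset.map_map]
    rfl
  have h3 : Finset.univ.val.map M₀.hs = Finset.univ.val.map M.hs := h.weights
  rw [he, h1, h2, h2, h3]

/-- a place of degree one and the place below -/
lemma norm_under {v : HeightOneSpectrum (𝓞 K)} {v₀ : HeightOneSpectrum (𝓞 K₀)}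
    (hv : (Ideal.absNorm v.asIdeal).Prime)
    (h : v.asIdeal.comap (algebraMap (𝓞 K₀) (𝓞 K)) = v₀.asIdeal) :
    Ideal.absNorm v₀.asIdeal = Ideal.absNorm v.asIdeal := by
  obtain ⟨v₁, hv₁, hn⟩ := exists_under (K₀ := K₀) v hv
  have h4 : v₁ = v₀ := by
    apply HeightOneSpectrum.ext
    rw [← hv₁, h]
  rw [← h4, hn]

/-- descent -/
lemma finite_desc {M₀ : IHGroup K₀ ℓ} {M : IHGroup K ℓ} (h : IsBaseChange M₀ M)
    {P : Set (HeightOneSpectrum (𝓞 K))} (hP : ∀ v ∈ P, (Ideal.absNorm v.asIdeal).Prime)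
    (hM : {v | v ∈ P ∧ ¬ M.Ordinary v}.Finite) :
    {v | v ∈ P ∧ ¬ ∀ v₀ : HeightOneSpectrum (𝓞 K₀),
      v.asIdeal.comap (algebraMap (𝓞 K₀) (𝓞 K)) = v₀.asIdeal → M₀.Ordinary v₀}.Finite := by
  classical
  let S : Finset ℕ := M₀.finite.toFinset.image fun v₀ => Ideal.absNorm v₀.asIdeal
  refine (hM.union (h.frob.union (finite_norm_mem (K := K) S))).subset ?_
  rintro v ⟨hvP, hv⟩
  by_contra hcon
  rw [Set.mem_union, not_or, Set.mem_union, not_or] at hcon
  obtain ⟨h1, h2, h3⟩ := hcon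
  have ho : M.Ordinary v := by
    by_contra h4
    exact h1 ⟨hvP, h4⟩
  have hf : ∀ v₀ : HeightOneSpectrum (𝓞 K₀),
      v.asIdeal.comap (algebraMap (𝓞 K₀) (𝓞 K)) = v₀.asIdeal → ∀ σ₀, IsFrob v₀ σ₀ →
        ∃ σ, IsFrob v σ ∧ (M₀.r σ₀⁻¹).charpoly = (M.r σ⁻¹).charpoly := by
    by_contra h4
    exact h2 ⟨hP v hvP, h4⟩
  refine hv fun v₀ hv₀ => ?_
  have hN := norm_under (hP v hvP) hv₀
  refine ordinary_desc h (fun hb => h3 ?_) hN (hf v₀ hv₀) ho
  rw [Set.mem_setOf_eq, ← hN]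
  exact Finset.mem_image.2 ⟨v₀, M₀.finite.mem_toFinset.2 hb, rfl⟩

/-- positive lower density -/
lemma density_desc [Finite ι] (hχ : Continuous χ) (s : ∀ a, Small χ (A a)) {M₀ : IHGroup K₀ ℓ}
    {M : IHGroup K ℓ} (h : IsBaseChange M₀ M) (hM : Closure A M) :
    0 < lowerDensity fun v₀ => M₀.Ordinary v₀ := by
  classical
  refine lt_of_lt_of_le (lower_under hχ s K₀) ?_
  let P : Set (HeightOneSpectrum (𝓞 K)) :=
    {v | (Ideal.absNorm v.asIdeal).Prime ∧ ∀ a, (A a).Ordinary v}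
  have h1 : {v | v ∈ P ∧ ¬ M.Ordinary v}.Finite :=
    finite_of_closure (fun v hv => hv.1) (fun a => Set.finite_empty.subset
      fun v hv => hv.2 (hv.1.2 a)) hM
  have h2 := finite_desc h (P := P) (fun v hv => hv.1) h1
  refine lowerDensity_le_of_finite _ _ (h2.toFinset.image fun v => Ideal.absNorm v.asIdeal) ?_
  rintro v₀ ⟨v, hv, hp, ho⟩ hT
  by_contra hno
  have hvB : v ∈ {v | v ∈ P ∧ ¬ ∀ v₀ : HeightOneSpectrum (𝓞 K₀),
      v.asIdeal.comap (algebraMap (𝓞 K₀) (𝓞 K)) = v₀.asIdeal → M₀.Ordinary v₀} :=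
    ⟨⟨hp, ho⟩, fun h3 => hno (h3 v₀ hv)⟩
  refine hT ?_
  rw [norm_under hp hv]
  exact Finset.mem_image.2 ⟨v, h2.mem_toFinset.2 hvB, rfl⟩

end desc

/-- **The universal set of places.** -/
theorem universal [Countable ι] (hχ : Continuous χ) (s : ∀ a, Small χ (A a)) :
    ∃ P : Set (HeightOneSpectrum (𝓞 K)), P.Infinite ∧
      (∀ v ∈ P, (Ideal.absNorm v.asIdeal).Prime) ∧
      (∀ m : ℕ, (∀ t : Finset ι, ∃ U : OpenNormalSubgroup (GK K),
        ConnectedOver χ (fun a : t => A a) U ∧ Nat.card (GK K ⧸ U.toSubgroup) ≤ m) →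
          1 / (m : ℝ) ≤ lowerDensity fun v => v ∈ P) ∧
      (Finite ι → 0 < lowerDensity fun v => v ∈ P) ∧
      ∀ M, Closure A M → {v | v ∈ P ∧ ¬ M.Ordinary v}.Finite := by
  classical
  obtain ⟨e, he⟩ := exists_injective_nat ι
  have hfin : ∀ n, Finite {a // e a < n} := fun n =>
    Finite.of_injective (β := Fin n) (fun a => ⟨e a.1, a.2⟩) (by
      rintro ⟨a, ha⟩ ⟨b, hb⟩ hab
      simp only [Fin.mk.injEq] at hab
      exact Subtype.ext (he hab))
  let D : ℕ → HeightOneSpectrum (𝓞 K) → Prop := fun n v =>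
    (Ideal.absNorm v.asIdeal).Prime ∧ ∀ a : {a // e a < n}, (A a).Ordinary v
  have hlow : ∀ n (U : OpenNormalSubgroup (GK K)),
      ConnectedOver χ (fun a : {a // e a < n} => A a) U →
      1 / (Nat.card (GK K ⧸ U.toSubgroup) : ℝ) ≤ lowerDensity (D n) := by
    intro n U hU
    haveI := hfin n
    exact lower_bound (A := fun a : {a // e a < n} => A a) hχ (fun a => s a) U hU
  have hcard : ∀ U : OpenNormalSubgroup (GK K), 0 < Nat.card (GK K ⧸ U.toSubgroup) := by
    intro U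
    have hUo : IsOpen (U.toSubgroup : Set (GK K)) := U.isOpen'
    haveI hUfin : Finite (GK K ⧸ U.toSubgroup) := Subgroup.quotient_finite_of_isOpen _ hUo
    exact Nat.card_pos
  have hD : ∀ n, 0 < lowerDensity (D n) := by
    intro n
    haveI := hfin n
    obtain ⟨U, hU⟩ := exists_connected χ (fun a : {a // e a < n} => A a)
    refine lt_of_lt_of_le ?_ (hlow n U hU)
    have h1 : (0 : ℝ) < (Nat.card (GK K ⧸ U.toSubgroup) : ℝ) := by exact_mod_cast hcard U
    positivity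
  have hbdd : BddBelow (Set.range fun n => lowerDensity (D n)) :=
    ⟨0, by rintro _ ⟨n, rfl⟩; exact (hD n).le⟩
  obtain ⟨P, hP1, hP2, hP3⟩ := diagonal D hD (⨅ n, lowerDensity (D n)) (fun n => ciInf_le hbdd n)
  have hnest : ∀ n₀ n, n₀ ≤ n → ∀ v, D n v → D n₀ v := by
    rintro n₀ n hn v ⟨h1, h2⟩
    exact ⟨h1, fun a => h2 ⟨a.1, lt_of_lt_of_le a.2 hn⟩⟩
  have hP4 : ∀ n₀, {v | v ∈ P ∧ ¬ D n₀ v}.Finite := fun n₀ =>
    (hP3 n₀).subset fun v hv => ⟨hv.1, fun n hn hDn => hv.2 (hnest n₀ n hn v hDn)⟩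
  let Q : Set (HeightOneSpectrum (𝓞 K)) := {v | v ∈ P ∧ (Ideal.absNorm v.asIdeal).Prime}
  have hPQ : {v | v ∈ P ∧ v ∉ Q}.Finite :=
    (hP4 0).subset fun v hv => ⟨hv.1, fun h => hv.2 ⟨hv.1, h.1⟩⟩
  have hden : lowerDensity (fun v => v ∈ P) ≤ lowerDensity (fun v => v ∈ Q) := by
    refine lowerDensity_le_of_finite _ _ (hPQ.toFinset.image fun v => Ideal.absNorm v.asIdeal)
      fun v hv hT => ?_
    by_contra hno
    exact hT (Finset.mem_image.2 ⟨v, hPQ.mem_toFinset.2 ⟨hv, hno⟩, rfl⟩)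
  refine ⟨Q, ?_, fun v hv => hv.2, ?_, ?_, ?_⟩
  · intro hfQ
    refine hP1 ((hfQ.union hPQ).subset fun v hv => ?_)
    by_cases h1 : v ∈ Q
    · exact Or.inl h1
    · exact Or.inr ⟨hv, h1⟩
  · intro m hm
    refine le_trans (le_trans ?_ hP2) hden
    refine le_ciInf fun n => ?_
    haveI := hfin n
    haveI : Fintype {a // e a < n} := Fintype.ofFinite _
    let t : Finset ι := (Finset.univ : Finset {a // e a < n}).map
      (Function.Embedding.subtype fun a => e a < n)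
    have ht : ∀ a, a ∈ t ↔ e a < n := by
      intro a
      simp only [t, Finset.mem_map, Finset.mem_univ, true_and, Function.Embedding.subtype_apply,
        Subtype.exists, exists_prop, exists_eq_right]
    obtain ⟨U, hU, hc⟩ := hm t
    have h1 := lower_bound (A := fun a : t => A a) hχ (fun a => s a) U hU
    have h2 : (fun v : HeightOneSpectrum (𝓞 K) =>
        (Ideal.absNorm v.asIdeal).Prime ∧ ∀ a : t, (A a).Ordinary v) = D n := by
      funext v
      refine propext (and_congr_right fun _ => ⟨fun h a => h ⟨a.1, (ht _).2 a.2⟩,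
        fun h a => h ⟨a.1, (ht _).1 a.2⟩⟩)
    rw [h2] at h1
    refine le_trans ?_ h1
    have h3 : (0 : ℝ) < (Nat.card (GK K ⧸ U.toSubgroup) : ℝ) := by exact_mod_cast hcard U
    exact one_div_le_one_div_of_le h3 (by exact_mod_cast hc)
  · intro hι
    obtain ⟨n, hn⟩ : ∃ n, ∀ a, e a < n := by
      haveI := Fintype.ofFinite ι
      exact ⟨Finset.univ.sup e + 1, fun a => Nat.lt_succ_of_le (Finset.le_sup (Finset.mem_univ a))⟩
    refine lt_of_lt_of_le (lt_of_lt_of_le (hD n) (le_trans ?_ hP2)) hden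
    exact le_ciInf fun n' => lowerDensity_le_of_finite _ _ ∅ fun v hv _ =>
      ⟨hv.1, fun a => hv.2 ⟨a.1, hn a.1⟩⟩
  · intro M hM
    refine finite_of_closure (P := Q) (fun v hv => hv.2) (fun a => ?_) hM
    refine (hP4 (e a + 1)).subset fun v hv => ⟨hv.1.1, fun h => hv.2 (h.2 ⟨a, Nat.lt_succ_self _⟩)⟩

end

end Pool.Agent.V7H61.LieOrd
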